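import Mathlib

/-!
Two-colourings of the union of two perfect matchings, and nested matchings.
-/

set_option autoImplicit false
set_option linter.unusedSectionVars false

namespace Pool.Agent.LibE457k

open Finset

section TwoInvol

variable {X : Type*} [DecidableEq X]

theorem two_invol_aux (M : X → X) : ∀ n : ℕ, ∀ S : Finset X, S.card ≤ n → ∀ N : X → X,
    (∀ x ∈ S, M x ∈ S ∧ M (M x) = x ∧ M x ≠ x) → (∀ x ∈ S, N x ∈ S ∧ N (N x) = x ∧ N x ≠ x) →
    ∃ χ : X → Bool, ∀ x ∈ S, χ (M x) ≠ χ x ∧ χ (N x) ≠ χ x := by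
  intro n
  induction n with
  | zero =>
    intro S hS N _ _
    have : S = ∅ := by simpa using hS
    subst this
    exact ⟨fun _ => true, by simp⟩
  | succ n ih =>
    intro S hS N hM hN
    rcases S.eq_empty_or_nonempty with hS0 | ⟨e, he⟩
    · subst hS0
      exact ⟨fun _ => true, by simp⟩
    obtain ⟨hf, hMf, hfe⟩ := hM e he
    set f := M e with hf_def
    obtain ⟨hNe, hNNe, hNee⟩ := hN e he
    obtain ⟨hNf, hNNf, hNff⟩ := hN f hf
    let S' := (S.erase e).erase f
    have hS' : ∀ x, x ∈ S' ↔ x ≠ f ∧ x ≠ e ∧ x ∈ S := by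
      intro x; simp [S']
    have hcard : S'.card ≤ n := by
      have h1 : f ∈ S.erase e := by simp [hfe, hf]
      have h2 : S'.card = (S.erase e).card - 1 := card_erase_of_mem h1
      have h3 : (S.erase e).card = S.card - 1 := card_erase_of_mem he
      omega
    let N' : X → X := fun x => if N x = e then N f else if N x = f then N e else N x
    have hM' : ∀ x ∈ S', M x ∈ S' ∧ M (M x) = x ∧ M x ≠ x := by
      intro x hx
      rw [hS'] at hx
      obtain ⟨h1, h2, h3⟩ := hM x hx.2.2
      refine ⟨(hS' _).2 ⟨?_, ?_, h1⟩, h2, h3⟩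
      · intro h
        apply hx.2.1
        rw [← h2, h, hMf]
      · intro h
        apply hx.1
        rw [← h2, h]
    have hN' : ∀ x ∈ S', N' x ∈ S' ∧ N' (N' x) = x ∧ N' x ≠ x := by
      intro x hx
      rw [hS'] at hx
      obtain ⟨h1, h2, h3⟩ := hN x hx.2.2
      by_cases hxe : N x = e
      · have hxa : x = N e := by rw [← hxe, h2]
        have hN'x : N' x = N f := by simp [N', hxe]
        have hNfe : N f ≠ e := by
          intro h
          apply hx.1
          rw [hxa, ← h, hNNf]
        rw [hN'x]
        refine ⟨(hS' _).2 ⟨hNff, hNfe, hNf⟩, ?_, ?_⟩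
        · simp only [N']
          rw [hNNf]
          rw [if_neg hfe, if_pos rfl, hxa]
        · intro h
          apply hfe
          rw [← hxe, ← h, hNNf]
      · by_cases hxf : N x = f
        · have hxb : x = N f := by rw [← hxf, h2]
          have hN'x : N' x = N e := by
            simp only [N']
            rw [if_neg hxe, if_pos hxf]
          rw [hN'x]
          refine ⟨(hS' _).2 ⟨?_, hNee, hNe⟩, ?_, ?_⟩
          · intro h
            apply hx.2.1
            rw [hxb, ← h, hNNe]
          · simp only [N']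
            rw [hNNe, if_pos rfl, hxb]
          · intro h
            apply hfe
            rw [← hxf, ← h, hNNe]
        · have hN'x : N' x = N x := by
            simp only [N']
            rw [if_neg hxe, if_neg hxf]
          rw [hN'x]
          refine ⟨(hS' _).2 ⟨hxf, hxe, h1⟩, ?_, h3⟩
          simp only [N']
          rw [h2, if_neg hx.2.1, if_neg hx.1]
    obtain ⟨χ, hχ⟩ := ih S' hcard N' hM' hN'
    by_cases hef : N e = f
    · refine ⟨fun x => if x = e then true else if x = f then false else χ x, fun x hx => ?_⟩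
      have hNfe : N f = e := by rw [← hef, hNNe]
      by_cases hxe : x = e
      · subst hxe
        simp only [← hf_def, hef, if_neg hfe, if_true]
        simp
      · by_cases hxf : x = f
        · rw [hxf]
          simp only [hMf, hNfe, if_neg hfe, if_true]
          simp
        · have hxS : x ∈ S' := (hS' x).2 ⟨hxf, hxe, hx⟩
          obtain ⟨h1, h2⟩ := hχ x hxS
          have h3 := (hS' _).1 (hM' x hxS).1
          have h4 : N x ≠ e := by
            intro h
            apply hxf
            rw [← hef, ← h, (hN x hx).2.1]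
          have h5 : N x ≠ f := by
            intro h
            apply hxe
            rw [← hNfe, ← h, (hN x hx).2.1]
          have h6 : N' x = N x := by
            simp only [N']
            rw [if_neg h4, if_neg h5]
          simp only [if_neg hxe, if_neg hxf, if_neg h3.1, if_neg h3.2.1, if_neg h4, if_neg h5]
          rw [h6] at h2
          exact ⟨h1, h2⟩
    · have hNfe : N f ≠ e := by
        intro h
        apply hef
        rw [← h, hNNf]
      have haS : N e ∈ S' := (hS' _).2 ⟨hef, hNee, hNe⟩
      have hbS : N f ∈ S' := (hS' _).2 ⟨hNff, hNfe, hNf⟩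
      have hab : χ (N f) ≠ χ (N e) := by
        have h1 := (hχ (N e) haS).2
        have h2 : N' (N e) = N f := by
          simp only [N']
          rw [hNNe, if_pos rfl]
        rwa [h2] at h1
      refine ⟨fun x => if x = e then !(χ (N e)) else if x = f then !(χ (N f)) else χ x,
        fun x hx => ?_⟩
      by_cases hxe : x = e
      · subst hxe
        simp only [← hf_def, if_neg hfe, if_true, if_neg hNee, if_neg hef]
        refine ⟨?_, ?_⟩
        · intro h
          apply hab
          exact Bool.not_inj h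
        · exact (Bool.not_ne_self _).symm
      · by_cases hxf : x = f
        · rw [hxf]
          simp only [hMf, if_neg hfe, if_true, if_neg hNfe, if_neg hNff]
          refine ⟨?_, ?_⟩
          · intro h
            apply hab
            exact (Bool.not_inj h).symm
          · exact (Bool.not_ne_self _).symm
        · have hxS : x ∈ S' := (hS' x).2 ⟨hxf, hxe, hx⟩
          obtain ⟨h1, h2⟩ := hχ x hxS
          have h3 := (hS' _).1 (hM' x hxS).1
          refine ⟨?_, ?_⟩
          · simp only [if_neg hxe, if_neg hxf, if_neg h3.1, if_neg h3.2.1]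
            exact h1
          · simp only [if_neg hxe, if_neg hxf]
            by_cases h4 : N x = e
            · have hxa : x = N e := by rw [← h4, (hN x hx).2.1]
              rw [if_pos h4, ← hxa]
              exact Bool.not_ne_self _
            · rw [if_neg h4]
              by_cases h5 : N x = f
              · have hxb : x = N f := by rw [← h5, (hN x hx).2.1]
                rw [if_pos h5, ← hxb]
                exact Bool.not_ne_self _
              · rw [if_neg h5]
                have h6 : N' x = N x := by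
                  simp only [N']
                  rw [if_neg h4, if_neg h5]
                rwa [h6] at h2

/-- The union of two fixed point free involutions is 2-colourable. -/
theorem two_invol [Fintype X] (M N : X → X) (hM : ∀ x, M (M x) = x) (hM' : ∀ x, M x ≠ x)
    (hN : ∀ x, N (N x) = x) (hN' : ∀ x, N x ≠ x) :
    ∃ χ : X → Bool, (∀ x, χ (M x) ≠ χ x) ∧ ∀ x, χ (N x) ≠ χ x := by
  obtain ⟨χ, hχ⟩ := two_invol_aux M _ univ le_rfl N
    (fun x _ => ⟨mem_univ _, hM x, hM' x⟩) (fun x _ => ⟨mem_univ _, hN x, hN' x⟩)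
  exact ⟨χ, fun x => (hχ x (mem_univ _)).1, fun x => (hχ x (mem_univ _)).2⟩

end TwoInvol

section Nested

variable {ι α β : Type*} [DecidableEq ι]

/-- **Nested matching.** -/
theorem nested_matching (f : ι → α) (g : ι → β) (hfg : ∀ x y, f x = f y → g x = g y) :
    ∀ n : ℕ, ∀ S : Finset ι, S.card = 2 * n →
    ∃ μ : ι → ι, (∀ x ∈ S, μ x ∈ S ∧ μ (μ x) = x ∧ μ x ≠ x) ∧
      (∀ x ∈ S, ∀ y ∈ S, f x = f y → f (μ x) ≠ f x → f (μ y) ≠ f y → x = y) ∧
      (∀ x ∈ S, ∀ y ∈ S, g x = g y → g (μ x) ≠ g x → g (μ y) ≠ g y → x = y) := by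
  intro n
  induction n with
  | zero =>
    intro S hS
    have : S = ∅ := by simpa using hS
    subst this
    exact ⟨id, by simp, by simp, by simp⟩
  | succ n ih =>
    intro S hS
    -- choose a pair
    have hpair : ∃ e ∈ S, ∃ e' ∈ S, e ≠ e' ∧
        (f e = f e' ∨ (∀ x ∈ S, ∀ y ∈ S, f x = f y → x = y)) ∧
        (g e = g e' ∨ (∀ x ∈ S, ∀ y ∈ S, g x = g y → x = y)) := by
      by_cases h1 : ∃ e ∈ S, ∃ e' ∈ S, e ≠ e' ∧ f e = f e'
      · obtain ⟨e, he, e', he', hne, hf⟩ := h1
        exact ⟨e, he, e', he', hne, Or.inl hf, Or.inl (hfg _ _ hf)⟩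
      · have hfinj : ∀ x ∈ S, ∀ y ∈ S, f x = f y → x = y := by
          intro x hx y hy hxy
          by_contra hne
          exact h1 ⟨x, hx, y, hy, hne, hxy⟩
        by_cases h2 : ∃ e ∈ S, ∃ e' ∈ S, e ≠ e' ∧ g e = g e'
        · obtain ⟨e, he, e', he', hne, hg⟩ := h2
          exact ⟨e, he, e', he', hne, Or.inr hfinj, Or.inl hg⟩
        · have hginj : ∀ x ∈ S, ∀ y ∈ S, g x = g y → x = y := by
            intro x hx y hy hxy
            by_contra hne
            exact h2 ⟨x, hx, y, hy, hne, hxy⟩
          have hc : 1 < S.card := by omega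
          obtain ⟨e, he, e', he', hne⟩ := Finset.one_lt_card.1 hc
          exact ⟨e, he, e', he', hne, Or.inr hfinj, Or.inr hginj⟩
    obtain ⟨e, he, e', he', hne, hfc, hgc⟩ := hpair
    let S' := (S.erase e).erase e'
    have hS' : ∀ x, x ∈ S' ↔ x ≠ e' ∧ x ≠ e ∧ x ∈ S := by
      intro x; simp [S']
    have hcard : S'.card = 2 * n := by
      have h1 : e' ∈ S.erase e := by simp [hne.symm, he']
      have h2 : S'.card = (S.erase e).card - 1 := card_erase_of_mem h1
      have h3 : (S.erase e).card = S.card - 1 := card_erase_of_mem he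
      omega
    obtain ⟨μ, hμ1, hμ2, hμ3⟩ := ih S' hcard
    let μ' : ι → ι := fun x => if x = e then e' else if x = e' then e else μ x
    have hμe : μ' e = e' := by simp [μ']
    have hμe' : μ' e' = e := by simp [μ', hne.symm]
    have hμx : ∀ x, x ≠ e → x ≠ e' → μ' x = μ x := by
      intro x h1 h2; simp [μ', h1, h2]
    refine ⟨μ', ?_, ?_, ?_⟩
    · intro x hx
      by_cases h1 : x = e
      · subst h1
        rw [hμe]
        exact ⟨he', hμe', hne.symm⟩
      · by_cases h2 : x = e'
        · subst h2
          rw [hμe']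
          exact ⟨he, hμe, hne⟩
        · rw [hμx x h1 h2]
          obtain ⟨h3, h4, h5⟩ := hμ1 x ((hS' x).2 ⟨h2, h1, hx⟩)
          have h6 := (hS' _).1 h3
          exact ⟨h6.2.2, by rw [hμx _ h6.2.1 h6.1, h4], h5⟩
    · rcases hfc with hfc | hfc
      · intro x hx y hy hxy hx' hy'
        by_cases h1 : x = e
        · subst h1; exact absurd (by rw [hμe, hfc]) hx'
        by_cases h2 : x = e'
        · subst h2; exact absurd (by rw [hμe', hfc]) hx'
        by_cases h3 : y = e
        · subst h3; exact absurd (by rw [hμe, hfc]) hy'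
        by_cases h4 : y = e'
        · subst h4; exact absurd (by rw [hμe', hfc]) hy'
        rw [hμx x h1 h2] at hx'
        rw [hμx y h3 h4] at hy'
        exact hμ2 x ((hS' x).2 ⟨h2, h1, hx⟩) y ((hS' y).2 ⟨h4, h3, hy⟩) hxy hx' hy'
      · intro x hx y hy hxy _ _
        exact hfc x hx y hy hxy
    · rcases hgc with hgc | hgc
      · intro x hx y hy hxy hx' hy'
        by_cases h1 : x = e
        · subst h1; exact absurd (by rw [hμe, hgc]) hx'
        by_cases h2 : x = e'
        · subst h2; exact absurd (by rw [hμe', hgc]) hx'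
        by_cases h3 : y = e
        · subst h3; exact absurd (by rw [hμe, hgc]) hy'
        by_cases h4 : y = e'
        · subst h4; exact absurd (by rw [hμe', hgc]) hy'
        rw [hμx x h1 h2] at hx'
        rw [hμx y h3 h4] at hy'
        exact hμ3 x ((hS' x).2 ⟨h2, h1, hx⟩) y ((hS' y).2 ⟨h4, h3, hy⟩) hxy hx' hy'
      · intro x hx y hy hxy _ _
        exact hgc x hx y hy hxy

/-- If all but at most one element of the class `f = a` is matched inside the class, the
class is coloured in a balanced way. -/
theorem class_balanced [DecidableEq α] {S : Finset ι} {f : ι → α} {μ : ι → ι} {χ : ι → Bool}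
    (hμ : ∀ x ∈ S, μ x ∈ S ∧ μ (μ x) = x ∧ μ x ≠ x)
    (hf : ∀ x ∈ S, ∀ y ∈ S, f x = f y → f (μ x) ≠ f x → f (μ y) ≠ f y → x = y)
    (hχ : ∀ x ∈ S, χ (μ x) ≠ χ x) (a : α) (b : Bool) :
    (S.filter (fun x => f x = a ∧ χ x = b)).card ≤
      (S.filter (fun x => f x = a ∧ χ x = !b)).card + 1 := by
  set P := S.filter (fun x => f x = a ∧ χ x = b) with hP
  set Q := S.filter (fun x => f x = a ∧ χ x = !b) with hQ
  have h1 : (P.filter (fun x => f (μ x) ≠ f x)).card ≤ 1 := by
    rw [card_le_one]
    intro x hx y hy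
    simp only [hP, mem_filter] at hx hy
    exact hf x hx.1.1 y hy.1.1 (by rw [hx.1.2.1, hy.1.2.1]) hx.2 hy.2
  have h2 : (P.filter (fun x => ¬ f (μ x) ≠ f x)).card ≤ Q.card := by
    refine card_le_card_of_injOn μ ?_ ?_
    · intro x hx
      obtain ⟨hxP, hxf⟩ := mem_filter.1 (mem_coe.1 hx)
      obtain ⟨hxS, hxa, hxb⟩ := mem_filter.1 hxP
      rw [not_not] at hxf
      refine mem_coe.2 (mem_filter.2 ⟨(hμ x hxS).1, by rw [hxf, hxa], ?_⟩)
      have := hχ x hxS
      rw [hxb] at this
      cases b <;> cases h : χ (μ x) <;> simp_all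
    · intro x hx y hy hxy
      have hx1 := (mem_filter.1 (mem_filter.1 (mem_coe.1 hx)).1).1
      have hy1 := (mem_filter.1 (mem_filter.1 (mem_coe.1 hy)).1).1
      rw [← (hμ x hx1).2.1, ← (hμ y hy1).2.1, hxy]
  have h3 := card_filter_add_card_filter_not (s := P) (fun x => f (μ x) ≠ f x)
  omega

/-- A perfectly matched set is coloured exactly in halves. -/
theorem half {S : Finset ι} {μ : ι → ι} {χ : ι → Bool} {k : ℕ} (hcard : S.card = 2 * k)
    (hμ : ∀ x ∈ S, μ x ∈ S ∧ μ (μ x) = x ∧ μ x ≠ x)
    (hχ : ∀ x ∈ S, χ (μ x) ≠ χ x) (b : Bool) : (S.filter (fun x => χ x = b)).card = k := by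
  have key : ∀ b : Bool, (S.filter (fun x => χ x = b)).card ≤
      (S.filter (fun x => ¬ χ x = b)).card := by
    intro b
    refine card_le_card_of_injOn μ ?_ ?_
    · intro x hx
      obtain ⟨hx1, hx2⟩ := mem_filter.1 (mem_coe.1 hx)
      refine mem_coe.2 (mem_filter.2 ⟨(hμ x hx1).1, ?_⟩)
      rw [← hx2]
      exact hχ x hx1
    · intro x hx y hy hxy
      have hx1 := (mem_filter.1 (mem_coe.1 hx)).1
      have hy1 := (mem_filter.1 (mem_coe.1 hy)).1
      rw [← (hμ x hx1).2.1, ← (hμ y hy1).2.1, hxy]
  have h1 := key b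
  have h2 := key (!b)
  have h3 : (S.filter (fun x => ¬ χ x = !b)) = S.filter (fun x => χ x = b) := by
    refine filter_congr fun x _ => ?_
    cases b <;> cases χ x <;> simp
  have h4 : (S.filter (fun x => χ x = !b)) = S.filter (fun x => ¬ χ x = b) := by
    refine filter_congr fun x _ => ?_
    cases b <;> cases χ x <;> simp
  rw [h3, h4] at h2
  have h5 := card_filter_add_card_filter_not (s := S) (fun x => χ x = b)
  omega

end Nested

end Pool.Agent.LibE457k
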