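import Pool.Agent.Lib_MP_e457e7_co_k.Rooted
import Pool.Agent.Lib_MP_e457e7_co_k.Pairing

/-!
The certificate theorem: if some arborescence `t` is convex on all critical sets then the
`2k` arborescences `π i` can be recombined in a balanced way.
-/

set_option autoImplicit false
set_option linter.unusedSectionVars false

namespace Pool.Agent.LibE457k

open Finset

variable {W ι α : Type*} [Fintype W] [DecidableEq W] [Fintype ι] [DecidableEq ι] [DecidableEq α]

/-- the arcs (as pairs `(i, v)` = arc of the `i`-th arborescence with head `v`) inside `Y` -/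
def inn (π : ι → W → Option W) (Y : Finset W) : Finset (ι × W) :=
  univ.filter (fun p => p.2 ∈ Y ∧ ∃ u ∈ Y, π p.1 p.2 = some u)

theorem mem_inn {π : ι → W → Option W} {Y : Finset W} {p : ι × W} :
    p ∈ inn π Y ↔ p.2 ∈ Y ∧ ∃ u ∈ Y, π p.1 p.2 = some u := by
  simp [inn]

/-- `Y` is critical (for `2k` arborescences `π` and the bound `h` for the discrepancy at the
single heads): its slack is at most `∑ v ∈ Y, h v - 2`. -/
def Crit (k : ℕ) (h : W → ℕ) (π : ι → W → Option W) (Y : Finset W) : Prop :=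
  2 * k * (Y.card - 1) + 2 ≤ (inn π Y).card + ∑ v ∈ Y, h v

/-- bounding the arcs inside a set by the slots -/
theorem card_inn_le_of_slots {k : ℕ} (σ : ι → Equiv.Perm W) (π : ι → W → Option W)
    (Y : Finset W) (y₀ : W) (hy₀ : y₀ ∈ Y) (χ : ι × W → Bool) (b : Bool)
    (hσ : ∀ p ∈ inn π Y, σ p.1 p.2 ∈ Y ∧ σ p.1 p.2 ≠ y₀)
    (hk : ∀ w, (univ.filter (fun i => χ (i, (σ i).symm w) = b)).card = k) :
    ((inn π Y).filter (fun p => χ p = b)).card ≤ k * (Y.card - 1) := by
  have h1 : ((Y.erase y₀).sigma (fun w => univ.filter (fun i => χ (i, (σ i).symm w) = b))).card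
      = k * (Y.card - 1) := by
    rw [card_sigma]
    simp only [hk]
    rw [sum_const, card_erase_of_mem hy₀, smul_eq_mul, mul_comm]
  rw [← h1]
  refine card_le_card_of_injOn (fun p => (⟨σ p.1 p.2, p.1⟩ : (_ : W) × ι)) ?_ ?_
  · intro p hp
    obtain ⟨hp1, hp2⟩ := mem_filter.1 (mem_coe.1 hp)
    obtain ⟨h2, h3⟩ := hσ p hp1
    refine mem_coe.2 (mem_sigma.2 ⟨mem_erase.2 ⟨h3, h2⟩, ?_⟩)
    simp [hp2]
  · intro p _ q _ hpq
    simp only [Sigma.mk.injEq, heq_eq_eq] at hpq
    obtain ⟨h2, h3⟩ := hpq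
    rw [h3] at h2
    exact Prod.ext h3 ((σ q.1).injective h2)

/-- discrepancy at one head -/
theorem head_disc (f : ι → Option W) (h : ℕ) (hh : (univ.image f).card ≤ 2 * h + 1)
    (Y : Finset W) (χ : ι → Bool) (μ : ι → ι)
    (hμ : ∀ x ∈ (univ : Finset ι), μ x ∈ (univ : Finset ι) ∧ μ (μ x) = x ∧ μ x ≠ x)
    (hf : ∀ x ∈ (univ : Finset ι), ∀ y ∈ (univ : Finset ι), f x = f y →
      f (μ x) ≠ f x → f (μ y) ≠ f y → x = y)
    (hχ : ∀ x, χ (μ x) ≠ χ x) (b : Bool) :
    (univ.filter (fun i => (∃ u ∈ Y, f i = some u) ∧ χ i = b)).card ≤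
      (univ.filter (fun i => (∃ u ∈ Y, f i = some u) ∧ χ i = !b)).card + h := by
  set P := univ.filter (fun i => (∃ u ∈ Y, f i = some u) ∧ χ i = b) with hP
  set P' := univ.filter (fun i => (∃ u ∈ Y, f i = some u) ∧ χ i = !b) with hP'
  set Q := P.filter (fun i => ¬ ∃ u ∈ Y, f (μ i) = some u) with hQ
  have hQmem : ∀ i, i ∈ Q → (∃ u ∈ Y, f i = some u) ∧ ¬ ∃ u ∈ Y, f (μ i) = some u := by
    intro i hi
    obtain ⟨h1, h2⟩ := mem_filter.1 hi
    exact ⟨(mem_filter.1 h1).2.1, h2⟩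
  have hQne : ∀ i, i ∈ Q → f (μ i) ≠ f i := by
    intro i hi h
    obtain ⟨h1, h2⟩ := hQmem i hi
    rw [← h] at h1
    exact h2 h1
  have h1 : (P.filter (fun i => ¬ ¬ ∃ u ∈ Y, f (μ i) = some u)).card ≤ P'.card := by
    refine card_le_card_of_injOn μ ?_ ?_
    · intro x hx
      obtain ⟨hxP, hxf⟩ := mem_filter.1 (mem_coe.1 hx)
      obtain ⟨_, hxa, hxb⟩ := mem_filter.1 hxP
      rw [not_not] at hxf
      refine mem_coe.2 (mem_filter.2 ⟨mem_univ _, hxf, ?_⟩)
      have := hχ x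
      rw [hxb] at this
      cases b <;> cases h : χ (μ x) <;> simp_all
    · intro x _ y _ hxy
      rw [← (hμ x (mem_univ _)).2.1, ← (hμ y (mem_univ _)).2.1, hxy]
  have h2 : (Q.image f).card = Q.card := by
    refine card_image_of_injOn ?_
    intro x hx y hy hxy
    exact hf x (mem_univ _) y (mem_univ _) hxy (hQne x (mem_coe.1 hx)) (hQne y (mem_coe.1 hy))
  have h3 : (Q.image (fun i => f (μ i))).card = Q.card := by
    refine card_image_of_injOn ?_
    intro x hx y hy hxy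
    have e1 := (hμ x (mem_univ _)).2.1
    have e2 := (hμ y (mem_univ _)).2.1
    have := hf (μ x) (mem_univ _) (μ y) (mem_univ _) hxy
      (by rw [e1]; exact (hQne x (mem_coe.1 hx)).symm)
      (by rw [e2]; exact (hQne y (mem_coe.1 hy)).symm)
    rw [← e1, ← e2, this]
  have hdisj : Disjoint (Q.image f) (Q.image (fun i => f (μ i))) := by
    rw [disjoint_left]
    intro o ho ho'
    obtain ⟨x, hx, hxo⟩ := mem_image.1 ho
    obtain ⟨y, hy, hyo⟩ := mem_image.1 ho'
    obtain ⟨⟨u, hu, hxu⟩, _⟩ := hQmem x hx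
    obtain ⟨_, hy2⟩ := hQmem y hy
    exact hy2 ⟨u, hu, by rw [hyo, ← hxo, hxu]⟩
  have hsub : Q.image f ∪ Q.image (fun i => f (μ i)) ⊆ univ.image f := by
    intro o ho
    rcases mem_union.1 ho with ho | ho
    · obtain ⟨x, _, hxo⟩ := mem_image.1 ho
      exact mem_image.2 ⟨x, mem_univ _, hxo⟩
    · obtain ⟨x, _, hxo⟩ := mem_image.1 ho
      exact mem_image.2 ⟨μ x, mem_univ _, hxo⟩
  have h5 := card_le_card hsub
  rw [card_union_of_disjoint hdisj, h2, h3] at h5
  have h4 := card_filter_add_card_filter_not (s := P) (fun i => ¬ ∃ u ∈ Y, f (μ i) = some u)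
  rw [← hQ] at h4
  omega

theorem card_inn_fiber (π : ι → W → Option W) (Y : Finset W) (χ : ι × W → Bool) (b : Bool) :
    ((inn π Y).filter (fun p => χ p = b)).card =
      ∑ v ∈ Y, (univ.filter (fun i => (∃ u ∈ Y, π i v = some u) ∧ χ (i, v) = b)).card := by
  rw [← card_sigma]
  refine card_bij (fun p _ => (⟨p.2, p.1⟩ : (_ : W) × ι)) ?_ ?_ ?_
  · intro p hp
    obtain ⟨h1, h2⟩ := mem_filter.1 hp
    obtain ⟨h3, h4⟩ := mem_inn.1 h1
    exact mem_sigma.2 ⟨h3, mem_filter.2 ⟨mem_univ _, h4, h2⟩⟩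
  · intro p _ q _ hpq
    simp only [Sigma.mk.injEq, heq_eq_eq] at hpq
    exact Prod.ext hpq.2 hpq.1
  · rintro ⟨v, i⟩ hx
    obtain ⟨h1, h2⟩ := mem_sigma.1 hx
    obtain ⟨_, h3, h4⟩ := mem_filter.1 h2
    exact ⟨(i, v), mem_filter.2 ⟨mem_inn.2 ⟨h1, h3⟩, h4⟩, rfl⟩

/-- **Certificate theorem.** -/
theorem core_of_tree {k : ℕ} (hι : Fintype.card ι = 2 * k) (π : ι → W → Option W)
    (hπ : ∀ i, Rooted (π i)) (lab : ι → W → α)
    (hlab : ∀ v i j, lab i v = lab j v → π i v = π j v)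
    (h : W → ℕ) (hh : ∀ v, (univ.image (fun i => π i v)).card ≤ 2 * h v + 1)
    (t : W → Option W) (ht : Rooted t)
    (hconv : ∀ Y : Finset W, Y.Nonempty → Crit k h π Y →
      ∃ y₀ ∈ Y, ∀ v ∈ Y, v ≠ y₀ → ∃ u ∈ Y, t v = some u) :
    ∃ χ : ι × W → Bool,
      (∀ b v, (univ.filter (fun i => χ (i, v) = b)).card = k) ∧
      (∀ b v a, (univ.filter (fun i => lab i v = a ∧ χ (i, v) = b)).card ≤
        (univ.filter (fun i => lab i v = a ∧ χ (i, v) = !b)).card + 1) ∧
      (∀ b, ∀ Y : Finset W, Y.Nonempty →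
        ((inn π Y).filter (fun p => χ p = b)).card ≤ k * (Y.card - 1)) := by
  classical
  have hS : (univ : Finset ι).card = 2 * k := by rw [card_univ, hι]
  choose σ hσ using fun i => exists_slots (hπ i) ht
  obtain ⟨τ, hτ, _, _⟩ := nested_matching (fun _ : ι => ()) (fun _ => ()) (fun _ _ _ => rfl)
    k univ hS
  choose μ hμ1 hμ2 hμ3 using fun v => nested_matching (fun i : ι => lab i v)
    (fun i => π i v) (hlab v) k univ hS
  let M : ι × W → ι × W := fun p => (μ p.2 p.1, p.2)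
  let N : ι × W → ι × W := fun p => (τ p.1, (σ (τ p.1)).symm (σ p.1 p.2))
  obtain ⟨χ, hχM, hχN⟩ := two_invol M N
    (fun p => by
      simp only [M]
      rw [(hμ1 p.2 p.1 (mem_univ _)).2.1])
    (fun p h => (hμ1 p.2 p.1 (mem_univ _)).2.2 (congrArg Prod.fst h))
    (fun p => by
      simp only [N]
      rw [(hτ p.1 (mem_univ _)).2.1]
      simp)
    (fun p h => (hτ p.1 (mem_univ _)).2.2 (congrArg Prod.fst h))
  have hslot : ∀ b w, (univ.filter (fun i => χ (i, (σ i).symm w) = b)).card = k := by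
    intro b w
    refine half (μ := τ) hS hτ (χ := fun i => χ (i, (σ i).symm w)) ?_ b
    intro i _
    have := hχN (i, (σ i).symm w)
    simpa [N] using this
  refine ⟨χ, ?_, ?_, ?_⟩
  · intro b v
    refine half (μ := μ v) hS (hμ1 v) (χ := fun i => χ (i, v)) ?_ b
    intro i _
    exact hχM (i, v)
  · intro b v a
    refine class_balanced (μ := μ v) (f := fun i => lab i v) (χ := fun i => χ (i, v))
      (hμ1 v) (hμ2 v) ?_ a b
    intro i _
    exact hχM (i, v)
  · intro b Y hY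
    by_cases hcrit : Crit k h π Y
    · obtain ⟨y₀, hy₀, hex⟩ := hconv Y hY hcrit
      refine card_inn_le_of_slots σ π Y y₀ hy₀ χ b ?_ (hslot b)
      intro p hp
      obtain ⟨hv, u, hu, hpu⟩ := mem_inn.1 hp
      have h1 := hσ p.1 p.2
      rw [hpu] at h1
      have h2 : ancO t (some u) (σ p.1 p.2) ↔ Anc t u (σ p.1 p.2) := by
        unfold ancO
        constructor
        · rintro ⟨u', hu', h⟩
          simp at hu'; subst hu'; exact h
        · intro h; exact ⟨u, rfl, h⟩
      rw [h2] at h1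
      by_cases h3 : Anc t p.2 (σ p.1 p.2)
      · have h4 : ¬ Anc t u (σ p.1 p.2) := fun h4 => h1 ⟨fun _ => h4, fun _ => h3⟩
        exact slot_mem ht hy₀ hex u hu p.2 hv _ h3 h4
      · have h4 : Anc t u (σ p.1 p.2) := by
          by_contra h4
          exact h1 ⟨fun h => absurd h h3, fun h => absurd h h4⟩
        exact slot_mem ht hy₀ hex p.2 hv u hu _ h4 h3
    · have hdisc : ((inn π Y).filter (fun p => χ p = b)).card ≤
          ((inn π Y).filter (fun p => χ p = !b)).card + ∑ v ∈ Y, h v := by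
        rw [card_inn_fiber, card_inn_fiber, ← sum_add_distrib]
        refine sum_le_sum fun v _ => ?_
        exact head_disc (fun i => π i v) (h v) (hh v) Y
          (fun i => χ (i, v)) (μ v) (hμ1 v) (hμ3 v) (fun i => hχM (i, v)) b
      have h1 : ((inn π Y).filter (fun p => χ p = !b)) =
          (inn π Y).filter (fun p => ¬ χ p = b) := by
        refine filter_congr fun x _ => ?_
        cases b <;> cases χ x <;> simp
      have h2 := card_filter_add_card_filter_not (s := inn π Y) (fun p => χ p = b)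
      rw [h1] at hdisc
      unfold Crit at hcrit
      have h3 : 2 * k * (Y.card - 1) = 2 * (k * (Y.card - 1)) := by ring
      rw [h3] at hcrit
      omega

end Pool.Agent.LibE457k
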