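import Mathlib

/-!
Edmonds' theorem on packing arborescences, weighted form (Lovász's proof).
-/

set_option autoImplicit false
set_option linter.unusedSectionVars false

namespace Pool.Agent.LibE457k

open Finset

variable {V A : Type*} [Fintype V] [DecidableEq V] [Fintype A] [DecidableEq A]

/-- spanning arborescence rooted at `r` -/
structure IsArb (tail head : A → V) (r : V) (T : Finset A) : Prop where
  head_ne : ∀ a ∈ T, head a ≠ r
  uniq : ∀ v, v ≠ r → ∃! a, a ∈ T ∧ head a = v
  reach : ∀ v, Relation.ReflTransGen (fun x y => ∃ a ∈ T, tail a = x ∧ head a = y) r v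

/-- total weight entering `X` -/
def rho (tail head : A → V) (x : A → ℕ) (X : Finset V) : ℕ :=
  ∑ a ∈ univ.filter (fun a => head a ∈ X ∧ tail a ∉ X), x a

theorem rho_eq (tail head : A → V) (x : A → ℕ) (X : Finset V) :
    rho tail head x X = ∑ a, if head a ∈ X ∧ tail a ∉ X then x a else 0 := by
  unfold rho
  rw [sum_filter]

theorem rho_submod (tail head : A → V) (x : A → ℕ) (X Y : Finset V) :
    rho tail head x (X ∩ Y) + rho tail head x (X ∪ Y) ≤
      rho tail head x X + rho tail head x Y := by
  simp only [rho_eq]
  rw [← sum_add_distrib, ← sum_add_distrib]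
  refine sum_le_sum fun a _ => ?_
  simp only [mem_inter, mem_union]
  by_cases h1 : head a ∈ X <;> by_cases h2 : head a ∈ Y <;> by_cases h3 : tail a ∈ X <;>
    by_cases h4 : tail a ∈ Y <;> simp [h1, h2, h3, h4]

/-- remove one copy of every arc of `T` -/
def sub1 (x : A → ℕ) (T : Finset A) : A → ℕ := fun a => x a - if a ∈ T then 1 else 0

/-- partial arborescence with node set `U` -/
structure Part (tail head : A → V) (r : V) (x : A → ℕ) (m : ℕ) (U : Finset V) (T : Finset A) :
    Prop where
  root : r ∈ U
  tail_mem : ∀ a ∈ T, tail a ∈ U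
  head_mem : ∀ a ∈ T, head a ∈ U
  head_ne : ∀ a ∈ T, head a ≠ r
  uniq : ∀ v ∈ U, v ≠ r → ∃! a, a ∈ T ∧ head a = v
  reach : ∀ v ∈ U, Relation.ReflTransGen (fun x y => ∃ a ∈ T, tail a = x ∧ head a = y) r v
  pos : ∀ a ∈ T, 1 ≤ x a
  cut : ∀ X : Finset V, X.Nonempty → r ∉ X → m ≤ rho tail head (sub1 x T) X

/-- there is an arc leaving `U` which can be added -/
theorem exists_arc {tail head : A → V} {r : V} {x : A → ℕ} {m : ℕ} {U : Finset V}
    {T : Finset A} (hx : ∀ X : Finset V, X.Nonempty → r ∉ X → m + 1 ≤ rho tail head x X)
    (hP : Part tail head r x m U T) (hU : U ≠ univ) :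
    ∃ a, 1 ≤ sub1 x T a ∧ tail a ∈ U ∧ head a ∉ U ∧
      ∀ X : Finset V, r ∉ X → head a ∈ X → tail a ∉ X → m + 1 ≤ rho tail head (sub1 x T) X := by
  classical
  set y := sub1 x T with hy
  let F : Finset (Finset V) := univ.filter (fun X => r ∉ X ∧ (X \ U).Nonempty ∧
    rho tail head y X ≤ m)
  have hF : ∀ X, X ∈ F ↔ r ∉ X ∧ (X \ U).Nonempty ∧ rho tail head y X ≤ m := by
    intro X; simp [F]
  rcases F.eq_empty_or_nonempty with h0 | h0
  · have hne : (univ \ U).Nonempty := by
      by_contra hcon
      rw [not_nonempty_iff_eq_empty, sdiff_eq_empty_iff_subset] at hcon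
      exact hU (univ_subset_iff.1 hcon)
    have h1 : m + 1 ≤ rho tail head y (univ \ U) := by
      by_contra hcon
      have : (univ \ U) ∈ F := by
        rw [hF]
        refine ⟨by simp [hP.root], ?_, by omega⟩
        obtain ⟨v, hv⟩ := hne
        exact ⟨v, by simpa using hv⟩
      rw [h0] at this
      simp at this
    have h2 : ∃ a, (head a ∈ univ \ U ∧ tail a ∉ univ \ U) ∧ y a ≠ 0 := by
      by_contra hcon
      push Not at hcon
      have : rho tail head y (univ \ U) = 0 := by
        unfold rho
        refine sum_eq_zero fun a ha => ?_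
        exact hcon a (mem_filter.1 ha).2
      omega
    obtain ⟨a, ⟨ha1, ha2⟩, ha3⟩ := h2
    refine ⟨a, Nat.one_le_iff_ne_zero.2 ha3, by simpa using ha2, by simpa using ha1, ?_⟩
    intro X hrX hhX _
    by_contra hcon
    have : X ∈ F := by
      rw [hF]
      exact ⟨hrX, ⟨head a, mem_sdiff.2 ⟨hhX, by simpa using ha1⟩⟩, by omega⟩
    rw [h0] at this
    simp at this
  · obtain ⟨X, hXF, hXmin⟩ := exists_min_image F Finset.card h0
    obtain ⟨hrX, hXU, hXm⟩ := (hF X).1 hXF
    have h1 : m + 1 ≤ rho tail head y (X \ U) := by
      have h2 : rho tail head y (X \ U) = rho tail head x (X \ U) := by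
        unfold rho
        refine sum_congr rfl fun a ha => ?_
        obtain ⟨ha1, _⟩ := (mem_filter.1 ha).2
        have : a ∉ T := fun haT => (mem_sdiff.1 ha1).2 (hP.head_mem a haT)
        simp [hy, sub1, this]
      rw [h2]
      exact hx _ hXU (fun h => hrX (mem_sdiff.1 h).1)
    have h2 : ∃ a, (head a ∈ X \ U ∧ tail a ∉ X \ U) ∧ ¬ (head a ∈ X ∧ tail a ∉ X) ∧ y a ≠ 0 := by
      by_contra hcon
      push Not at hcon
      have : rho tail head y (X \ U) ≤ rho tail head y X := by
        rw [rho_eq, rho_eq]
        refine sum_le_sum fun a _ => ?_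
        by_cases h3 : head a ∈ X \ U ∧ tail a ∉ X \ U
        · rw [if_pos h3]
          by_cases h4 : head a ∈ X ∧ tail a ∉ X
          · rw [if_pos h4]
          · have := hcon a h3 (fun h => by
              by_contra h5
              exact h4 ⟨h, h5⟩)
            rw [this]
            exact Nat.zero_le _
        · rw [if_neg h3]
          exact Nat.zero_le _
      omega
    obtain ⟨a, ⟨ha1, ha2⟩, ha3, ha4⟩ := h2
    obtain ⟨haX, haU⟩ := mem_sdiff.1 ha1
    have htX : tail a ∈ X := by
      by_contra h
      exact ha3 ⟨haX, h⟩
    have htU : tail a ∈ U := by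
      by_contra h
      exact ha2 (mem_sdiff.2 ⟨htX, h⟩)
    refine ⟨a, Nat.one_le_iff_ne_zero.2 ha4, htU, haU, ?_⟩
    intro X' hrX' hhX' htX'
    by_contra hcon
    have hsub := rho_submod tail head y X X'
    have h5 : m ≤ rho tail head y (X ∪ X') := by
      refine hP.cut _ ⟨head a, mem_union_left _ haX⟩ ?_
      intro h
      rcases mem_union.1 h with h | h
      · exact hrX h
      · exact hrX' h
    have h6 : X ∩ X' ∈ F := by
      rw [hF]
      refine ⟨fun h => hrX (mem_inter.1 h).1, ⟨head a, ?_⟩, by omega⟩
      exact mem_sdiff.2 ⟨mem_inter.2 ⟨haX, hhX'⟩, haU⟩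
    have h7 := hXmin _ h6
    have h8 : (X ∩ X').card < X.card := by
      refine card_lt_card ?_
      refine ⟨inter_subset_left, fun h => htX' ?_⟩
      exact (mem_inter.1 (h htX)).2
    omega

theorem grow {tail head : A → V} {r : V} {x : A → ℕ} {m : ℕ}
    (hx : ∀ X : Finset V, X.Nonempty → r ∉ X → m + 1 ≤ rho tail head x X) :
    ∀ n : ℕ, ∀ U : Finset V, ∀ T : Finset A, (univ \ U).card ≤ n → Part tail head r x m U T →
      ∃ T, Part tail head r x m univ T := by
  classical
  intro n
  induction n with
  | zero =>
    intro U T hU hP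
    have : U = univ := by
      have h1 : univ \ U = ∅ := by simpa using hU
      exact univ_subset_iff.1 (sdiff_eq_empty_iff_subset.1 h1)
    subst this
    exact ⟨T, hP⟩
  | succ n ih =>
    intro U T hU hP
    by_cases hUu : U = univ
    · subst hUu
      exact ⟨T, hP⟩
    obtain ⟨a, ha1, ha2, ha3, ha4⟩ := exists_arc hx hP hUu
    have haT : a ∉ T := fun h => ha3 (hP.head_mem a h)
    refine ih (insert (head a) U) (insert a T) ?_ ?_
    · have h1 : univ \ insert (head a) U = (univ \ U).erase (head a) := by
        ext v
        simp only [mem_sdiff, mem_univ, true_and, mem_insert, not_or, mem_erase]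
      rw [h1, card_erase_of_mem (by simp [ha3])]
      omega
    · refine ⟨?_, ?_, ?_, ?_, ?_, ?_, ?_, ?_⟩
      · exact mem_insert_of_mem hP.root
      · intro b hb
        rcases mem_insert.1 hb with rfl | hb
        · exact mem_insert_of_mem ha2
        · exact mem_insert_of_mem (hP.tail_mem b hb)
      · intro b hb
        rcases mem_insert.1 hb with rfl | hb
        · exact mem_insert_self _ _
        · exact mem_insert_of_mem (hP.head_mem b hb)
      · intro b hb
        rcases mem_insert.1 hb with rfl | hb
        · intro h
          apply ha3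
          rw [h]
          exact hP.root
        · exact hP.head_ne b hb
      · intro v hv hvr
        rcases mem_insert.1 hv with hvh | hv'
        · subst hvh
          refine ⟨a, ⟨mem_insert_self _ _, rfl⟩, ?_⟩
          rintro b ⟨hb, hba⟩
          rcases mem_insert.1 hb with rfl | hb
          · rfl
          · exact absurd (hba ▸ hP.head_mem b hb) ha3
        · obtain ⟨b, ⟨hb1, hb2⟩, hb3⟩ := hP.uniq v hv' hvr
          refine ⟨b, ⟨mem_insert_of_mem hb1, hb2⟩, ?_⟩
          rintro c ⟨hc, hcv⟩
          rcases mem_insert.1 hc with hca | hc'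
          · rw [hca] at hcv
            rw [← hcv] at hv'
            exact absurd hv' ha3
          · exact hb3 c ⟨hc', hcv⟩
      · have hmono : ∀ v, Relation.ReflTransGen
            (fun x y => ∃ a ∈ T, tail a = x ∧ head a = y) r v →
            Relation.ReflTransGen
            (fun x y => ∃ b ∈ insert a T, tail b = x ∧ head b = y) r v := by
          intro v hv
          refine Relation.ReflTransGen.mono ?_ _ _ hv
          rintro x y ⟨b, hb, h⟩
          exact ⟨b, mem_insert_of_mem hb, h⟩
        intro v hv
        rcases mem_insert.1 hv with rfl | hv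
        · refine Relation.ReflTransGen.tail (hmono _ (hP.reach _ ha2)) ?_
          exact ⟨a, mem_insert_self _ _, rfl, rfl⟩
        · exact hmono v (hP.reach v hv)
      · intro b hb
        rcases mem_insert.1 hb with rfl | hb
        · have : sub1 x T b ≤ x b := Nat.sub_le _ _
          omega
        · exact hP.pos b hb
      · intro X hX hrX
        have hsub : ∀ b, sub1 x (insert a T) b + (if b = a then 1 else 0) = sub1 x T b := by
          intro b
          by_cases hba : b = a
          · subst hba
            simp only [sub1, mem_insert_self, if_true, haT, if_false] at ha1 ⊢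
            omega
          · simp [sub1, hba]
        by_cases hen : head a ∈ X ∧ tail a ∉ X
        · have h1 := ha4 X hrX hen.1 hen.2
          have h2 : rho tail head (sub1 x T) X ≤ rho tail head (sub1 x (insert a T)) X + 1 := by
            unfold rho
            have h3 : ∑ b ∈ univ.filter (fun b => head b ∈ X ∧ tail b ∉ X), sub1 x T b =
                ∑ b ∈ univ.filter (fun b => head b ∈ X ∧ tail b ∉ X),
                  sub1 x (insert a T) b +
                ∑ b ∈ univ.filter (fun b => head b ∈ X ∧ tail b ∉ X),
                  (if b = a then 1 else 0) := by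
              rw [← sum_add_distrib]
              exact sum_congr rfl fun b _ => (hsub b).symm
            rw [h3]
            have h4 : ∑ b ∈ univ.filter (fun b => head b ∈ X ∧ tail b ∉ X),
                (if b = a then 1 else 0) ≤ 1 := by
              rw [sum_ite_eq']
              split_ifs <;> omega
            omega
          omega
        · have h2 : rho tail head (sub1 x (insert a T)) X = rho tail head (sub1 x T) X := by
            unfold rho
            refine sum_congr rfl fun b hb => ?_
            have hba : b ≠ a := by
              rintro rfl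
              exact hen (mem_filter.1 hb).2
            have := hsub b
            rw [if_neg hba] at this
            omega
          rw [h2]
          exact hP.cut X hX hrX

/-- peel off one arborescence -/
theorem peel {tail head : A → V} {r : V} {x : A → ℕ} {m : ℕ}
    (hx : ∀ X : Finset V, X.Nonempty → r ∉ X → m + 1 ≤ rho tail head x X) :
    ∃ T : Finset A, IsArb tail head r T ∧ (∀ a ∈ T, 1 ≤ x a) ∧
      ∀ X : Finset V, X.Nonempty → r ∉ X → m ≤ rho tail head (sub1 x T) X := by
  classical
  have hP : Part tail head r x m {r} ∅ := by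
    refine ⟨by simp, by simp, by simp, by simp, ?_, ?_, by simp, ?_⟩
    · intro v hv hvr
      exact absurd (by simpa using hv) hvr
    · intro v hv
      have : v = r := by simpa using hv
      subst this
      exact Relation.ReflTransGen.refl
    · intro X hX hrX
      have h1 : sub1 x ∅ = x := by
        funext a; simp [sub1]
      rw [h1]
      have := hx X hX hrX
      omega
  obtain ⟨T, hT⟩ := grow hx _ {r} ∅ le_rfl hP
  refine ⟨T, ⟨hT.head_ne, fun v hv => hT.uniq v (mem_univ _) hv, fun v => hT.reach v (mem_univ _)⟩,
    hT.pos, hT.cut⟩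

/-- `x` is a sum of `k` arborescences (cut form) -/
structure Good (tail head : A → V) (r : V) (k : ℕ) (x : A → ℕ) : Prop where
  root : ∀ a, head a = r → x a = 0
  deg : ∀ v, v ≠ r → ∑ a ∈ univ.filter (fun a => head a = v), x a = k
  cut : ∀ X : Finset V, X.Nonempty → r ∉ X → k ≤ rho tail head x X

/-- **Edmonds' theorem** (weighted form). -/
theorem edmonds {tail head : A → V} {r : V} : ∀ (k : ℕ) (x : A → ℕ), Good tail head r k x →
    ∃ B : Fin k → Finset A, (∀ i, IsArb tail head r (B i)) ∧
      ∀ a, (univ.filter (fun i => a ∈ B i)).card = x a := by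
  intro k
  induction k with
  | zero =>
    intro x hx
    refine ⟨fun i => i.elim0, fun i => i.elim0, fun a => ?_⟩
    have h1 : x a = 0 := by
      by_cases h : head a = r
      · exact hx.root a h
      · have := hx.deg (head a) h
        exact (sum_eq_zero_iff.1 this) a (by simp)
    rw [h1]
    simp
  | succ k ih =>
    intro x hx
    obtain ⟨T, hT, hTx, hTc⟩ := peel hx.cut
    have hgood : Good tail head r k (sub1 x T) := by
      refine ⟨?_, ?_, hTc⟩
      · intro a ha
        have := hx.root a ha
        simp [sub1, this]
      · intro v hv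
        have h1 := hx.deg v hv
        have h2 : ∑ a ∈ univ.filter (fun a => head a = v), x a =
            ∑ a ∈ univ.filter (fun a => head a = v), sub1 x T a +
            ∑ a ∈ univ.filter (fun a => head a = v), (if a ∈ T then 1 else 0) := by
          rw [← sum_add_distrib]
          refine sum_congr rfl fun a _ => ?_
          unfold sub1
          split_ifs with h
          · have := hTx a h
            omega
          · omega
        have h3 : ∑ a ∈ univ.filter (fun a => head a = v), (if a ∈ T then 1 else 0) = 1 := by
          rw [← card_filter, filter_filter]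
          obtain ⟨b, ⟨hb1, hb2⟩, hb3⟩ := hT.uniq v hv
          rw [card_eq_one]
          refine ⟨b, ?_⟩
          ext c
          simp only [mem_filter, mem_univ, true_and, mem_singleton]
          constructor
          · rintro ⟨h1, h2⟩
            exact hb3 c ⟨h2, h1⟩
          · rintro rfl
            exact ⟨hb2, hb1⟩
        omega
    obtain ⟨B, hB, hBx⟩ := ih _ hgood
    refine ⟨Fin.cons T B, ?_, ?_⟩
    · intro i
      refine Fin.cases ?_ (fun j => ?_) i
      · simpa using hT
      · simpa using hB j
    · intro a
      rw [card_filter, Fin.sum_univ_succ]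
      simp only [Fin.cons_zero, Fin.cons_succ]
      rw [← card_filter, hBx a]
      unfold sub1
      split_ifs with h
      · have := hTx a h
        omega
      · omega

/-- an arborescence enters every set not containing the root -/
theorem IsArb.enters {tail head : A → V} {r : V} {T : Finset A} (hT : IsArb tail head r T)
    {X : Finset V} (hX : X.Nonempty) (hrX : r ∉ X) : ∃ a ∈ T, head a ∈ X ∧ tail a ∉ X := by
  obtain ⟨v, hv⟩ := hX
  have h := hT.reach v
  by_contra hcon
  push Not at hcon
  have key : ∀ w, Relation.ReflTransGen (fun x y => ∃ a ∈ T, tail a = x ∧ head a = y) r w →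
      w ∉ X := by
    intro w hw
    induction hw with
    | refl => exact hrX
    | tail _ hstep ih =>
      obtain ⟨a, ha, h1, h2⟩ := hstep
      intro hc
      rw [← h2] at hc
      apply ih
      rw [← h1]
      exact hcon a ha hc
  exact key v h hv

end Pool.Agent.LibE457k
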