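import Pool.Agent.Lib_MP_e457e7_co_k.Rooted

/-!
A finite family of subsets of a finite set which has the Helly property and a chordal
intersection graph has a host tree (all members are subtrees).
-/

set_option autoImplicit false
set_option linter.unusedSectionVars false

namespace Pool.Agent.LibE457k

open Finset

section Dirac

variable {α : Type*} [DecidableEq α]

/-- adjacency of two elements of `S` which are both not adjacent to `D` -/
def Away (adj : α → α → Prop) (S : Finset α) (D : α) : α → α → Prop := fun a b =>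
  (a ∈ S ∧ ¬ adj a D) ∧ (b ∈ S ∧ ¬ adj b D) ∧ adj a b

/-- chordality of the graph `adj` on `S`, in the following form: two neighbours of `D` which have
neighbours in the same component of `S - N[D]` are adjacent -/
def Chordal (adj : α → α → Prop) (S : Finset α) : Prop :=
  ∀ D ∈ S, ∀ C ∈ S, ∀ C' ∈ S, ∀ Q ∈ S, ∀ Q', adj C D → adj C' D → ¬ adj Q D →
    Relation.ReflTransGen (Away adj S D) Q Q' → adj C Q → adj C' Q' → adj C C'

theorem Chordal.mono {adj : α → α → Prop} {S S' : Finset α} (h : Chordal adj S) (hS : S' ⊆ S) :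
    Chordal adj S' := by
  intro D hD C hC C' hC' Q hQ Q' h1 h2 h3 h4 h5 h6
  refine h D (hS hD) C (hS hC) C' (hS hC') Q (hS hQ) Q' h1 h2 h3 ?_ h5 h6
  refine Relation.ReflTransGen.mono ?_ _ _ h4
  rintro a b ⟨⟨ha, ha'⟩, ⟨hb, hb'⟩, hab⟩
  exact ⟨⟨hS ha, ha'⟩, ⟨hS hb, hb'⟩, hab⟩

theorem dirac (adj : α → α → Prop) (hrefl : ∀ a, adj a a) (hsymm : ∀ a b, adj a b → adj b a) :
    ∀ n : ℕ, ∀ S : Finset α, S.card ≤ n → Chordal adj S →
      ∀ D ∈ S, (∃ E ∈ S, ¬ adj E D) →
        ∃ K ∈ S, ¬ adj K D ∧ ∀ A ∈ S, ∀ B ∈ S, adj A K → adj B K → adj A B := by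
  classical
  intro n
  induction n with
  | zero =>
    intro S hS _ D hD _
    have : S = ∅ := by simpa using hS
    subst this
    simp at hD
  | succ n ih =>
    intro S hS hch D hD ⟨E, hE, hED⟩
    let K : Finset α := S.filter (fun Q => Relation.ReflTransGen (Away adj S D) E Q)
    have hK : ∀ Q, Q ∈ K ↔ Q ∈ S ∧ Relation.ReflTransGen (Away adj S D) E Q := by
      intro Q; simp [K]
    have hKna : ∀ Q ∈ K, ¬ adj Q D := by
      intro Q hQ
      obtain ⟨_, hQ2⟩ := (hK Q).1 hQ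
      rcases Relation.ReflTransGen.cases_tail hQ2 with h | ⟨R, _, h⟩
      · rw [h]; exact hED
      · exact h.2.1.2
    have hEK : E ∈ K := (hK E).2 ⟨hE, Relation.ReflTransGen.refl⟩
    let B : Finset α := S.filter (fun C => adj C D ∧ ∃ Q ∈ K, adj C Q)
    have hB : ∀ C, C ∈ B ↔ C ∈ S ∧ adj C D ∧ ∃ Q ∈ K, adj C Q := by
      intro C; simp [B]
    have hsymR : ∀ a b, Relation.ReflTransGen (Away adj S D) a b →
        Relation.ReflTransGen (Away adj S D) b a := by
      intro a b h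
      induction h with
      | refl => exact Relation.ReflTransGen.refl
      | tail _ hstep ih2 =>
        exact Relation.ReflTransGen.head ⟨hstep.2.1, hstep.1, hsymm _ _ hstep.2.2⟩ ih2
    have hBclique : ∀ C ∈ B, ∀ C' ∈ B, adj C C' := by
      intro C hC C' hC'
      obtain ⟨h1, h2, Q, hQ, h3⟩ := (hB C).1 hC
      obtain ⟨h4, h5, Q', hQ', h6⟩ := (hB C').1 hC'
      refine hch D hD C h1 C' h4 Q ((hK Q).1 hQ).1 Q' h2 h5 (hKna Q hQ) ?_ h3 h6
      exact Relation.ReflTransGen.trans (hsymR _ _ ((hK Q).1 hQ).2) ((hK Q').1 hQ').2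
    have hnbr : ∀ Q ∈ K, ∀ A ∈ S, adj A Q → A ∈ K ∪ B := by
      intro Q hQ A hA hAQ
      by_cases h : adj A D
      · exact mem_union_right _ ((hB A).2 ⟨hA, h, Q, hQ, hAQ⟩)
      · refine mem_union_left _ ((hK A).2 ⟨hA, ?_⟩)
        refine Relation.ReflTransGen.tail ((hK Q).1 hQ).2 ?_
        exact ⟨⟨((hK Q).1 hQ).1, hKna Q hQ⟩, ⟨hA, h⟩, hsymm _ _ hAQ⟩
    have hS' : K ∪ B ⊆ S.erase D := by
      intro A hA
      rcases mem_union.1 hA with h | h
      · refine mem_erase.2 ⟨?_, ((hK A).1 h).1⟩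
        rintro rfl
        exact hKna A h (hrefl A)
      · refine mem_erase.2 ⟨?_, ((hB A).1 h).1⟩
        rintro rfl
        obtain ⟨_, _, Q, hQ, hAQ⟩ := (hB A).1 h
        exact hKna Q hQ (hsymm _ _ hAQ)
    have hcard : (K ∪ B).card ≤ n := by
      have h1 := card_le_card hS'
      rw [card_erase_of_mem hD] at h1
      omega
    have hch' : Chordal adj (K ∪ B) := hch.mono (hS'.trans (erase_subset _ _))
    -- it is enough to find a simplicial element in K
    have key : ∃ Q ∈ K, ∀ A ∈ K ∪ B, ∀ A' ∈ K ∪ B, adj A Q → adj A' Q → adj A A' := by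
      by_cases hcomp : ∀ X ∈ K ∪ B, ∀ Y ∈ K ∪ B, adj X Y
      · exact ⟨E, hEK, fun A hA A' hA' _ _ => hcomp A hA A' hA'⟩
      push Not at hcomp
      obtain ⟨X, hX, Y, hY, hXY⟩ := hcomp
      obtain ⟨K₁, hK₁, hK₁Y, hK₁s⟩ := ih (K ∪ B) hcard hch' Y hY ⟨X, hX, hXY⟩
      rcases mem_union.1 hK₁ with h | h
      · exact ⟨K₁, h, hK₁s⟩
      · obtain ⟨K₂, hK₂, hK₂1, hK₂s⟩ := ih (K ∪ B) hcard hch' K₁ hK₁
          ⟨Y, hY, fun h' => hK₁Y (hsymm _ _ h')⟩
        rcases mem_union.1 hK₂ with h' | h'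
        · exact ⟨K₂, h', hK₂s⟩
        · exact absurd (hBclique K₂ h' K₁ h) hK₂1
    obtain ⟨Q, hQ, hQs⟩ := key
    refine ⟨Q, ((hK Q).1 hQ).1, hKna Q hQ, ?_⟩
    intro A hA A' hA' h1 h2
    exact hQs A (hnbr Q hQ A hA h1) A' (hnbr Q hQ A' hA' h2) h1 h2

/-- A nonempty chordal graph has a simplicial vertex. -/
theorem exists_simplicial (adj : α → α → Prop) (hrefl : ∀ a, adj a a)
    (hsymm : ∀ a b, adj a b → adj b a) (S : Finset α) (hS : S.Nonempty) (hch : Chordal adj S) :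
    ∃ K ∈ S, ∀ A ∈ S, ∀ B ∈ S, adj A K → adj B K → adj A B := by
  by_cases hcomp : ∀ X ∈ S, ∀ Y ∈ S, adj X Y
  · obtain ⟨K, hK⟩ := hS
    exact ⟨K, hK, fun A hA B hB _ _ => hcomp A hA B hB⟩
  · push Not at hcomp
    obtain ⟨X, hX, Y, hY, hXY⟩ := hcomp
    obtain ⟨K, hK, _, hKs⟩ := dirac adj hrefl hsymm _ S le_rfl hch Y hY ⟨X, hX, hXY⟩
    exact ⟨K, hK, hKs⟩

end Dirac

section Tree

variable {W : Type*} [Fintype W] [DecidableEq W]

/-- two sets meet -/
def Meet (X Y : Finset W) : Prop := ∃ v, v ∈ X ∧ v ∈ Y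

theorem Meet.symm {X Y : Finset W} (h : Meet X Y) : Meet Y X := by
  obtain ⟨v, h1, h2⟩ := h
  exact ⟨v, h2, h1⟩

/-- adjacency in the intersection graph -/
def Adj (X Y : Finset W) : Prop := X = Y ∨ Meet X Y

/-- Helly property -/
def Helly (F : Finset (Finset W)) : Prop :=
  ∀ G ⊆ F, G.Nonempty → (∀ X ∈ G, ∀ Y ∈ G, Adj X Y) → ∃ v, ∀ X ∈ G, v ∈ X

theorem host_tree : ∀ n : ℕ, ∀ (S : Finset W) (F : Finset (Finset W)), S.card ≤ n →
    (∀ X ∈ F, X ⊆ S) → Helly F → Chordal Adj F →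
    ∃ t : W → Option W, Rooted t ∧ ∀ X ∈ F, X.Nonempty →
      ∃ y₀ ∈ X, ∀ v ∈ X, v ≠ y₀ → ∃ u ∈ X, t v = some u := by
  classical
  intro n
  induction n with
  | zero =>
    intro S F hS hF _ _
    refine ⟨fun _ => none, ?_, ?_⟩
    · rintro Y ⟨v, hv⟩
      exact ⟨v, hv, by simp⟩
    · rintro X hX ⟨v, hv⟩
      have : S = ∅ := by simpa using hS
      have h1 := hF X hX hv
      rw [this] at h1
      simp at h1
  | succ n ih =>
    intro S F hS hF hH hch
    let F₂ := F.filter (fun X => 2 ≤ X.card)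
    have hF₂ : F₂ ⊆ F := filter_subset _ _
    have hcard2 : ∀ X ∈ F₂, 2 ≤ X.card := fun X hX => (mem_filter.1 hX).2
    have hsmall : ∀ X ∈ F, X ∉ F₂ → X.Nonempty → ∃ y₀, X = {y₀} := by
      intro X hX hX2 hne
      have h1 : ¬ 2 ≤ X.card := fun h => hX2 (mem_filter.2 ⟨hX, h⟩)
      have h2 := card_pos.2 hne
      exact card_eq_one.1 (by omega)
    rcases F₂.eq_empty_or_nonempty with h0 | h0
    · refine ⟨fun _ => none, ?_, ?_⟩
      · rintro Y ⟨v, hv⟩
        exact ⟨v, hv, by simp⟩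
      · intro X hX hne
        obtain ⟨y₀, rfl⟩ := hsmall X hX (by rw [h0]; simp) hne
        refine ⟨y₀, by simp, fun v hv hvy => ?_⟩
        exact absurd (by simpa using hv) hvy
    have hH₂ : Helly F₂ := fun G hG => hH G (hG.trans hF₂)
    have hch₂ : Chordal Adj F₂ := hch.mono hF₂
    have hmeet : ∀ X ∈ F₂, ∀ Y ∈ F₂, Adj X Y → Meet X Y := by
      intro X hX Y _ h
      rcases h with h | h
      · subst h
        have := hcard2 X hX
        obtain ⟨v, hv⟩ := card_pos.1 (by omega : 0 < X.card)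
        exact ⟨v, hv, hv⟩
      · exact h
    obtain ⟨Y₀, hY₀, hsimp⟩ := exists_simplicial Adj (fun X => Or.inl rfl)
      (fun X Y h => h.elim (fun h => Or.inl h.symm) (fun h => Or.inr h.symm)) F₂ h0 hch₂
    -- the common element of all members meeting `Y₀`
    obtain ⟨b, hb⟩ := hH₂ (F₂.filter (fun X => Adj X Y₀)) (filter_subset _ _)
      ⟨Y₀, mem_filter.2 ⟨hY₀, Or.inl rfl⟩⟩ (by
        intro X hX Y hY
        obtain ⟨hX1, hX2⟩ := mem_filter.1 hX
        obtain ⟨hY1, hY2⟩ := mem_filter.1 hY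
        exact hsimp X hX1 Y hY1 hX2 hY2)
    obtain ⟨a, haY, hab⟩ : ∃ a ∈ Y₀, a ≠ b := by
      by_contra hcon
      push Not at hcon
      have h1 : Y₀ ⊆ {b} := fun x hx => by simp [hcon x hx]
      have h2 := card_le_card h1
      have h3 := hcard2 Y₀ hY₀
      simp at h2
      omega
    -- `b` dominates `a`
    have hdom : ∀ X ∈ F₂, a ∈ X → b ∈ X := by
      intro X hX ha
      exact hb X (mem_filter.2 ⟨hX, Or.inr ⟨a, ha, haY⟩⟩)
    have haS : a ∈ S := hF Y₀ (hF₂ hY₀) haY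
    let F' := F₂.image (fun X => X.erase a)
    have hF' : ∀ X', X' ∈ F' ↔ ∃ X ∈ F₂, X.erase a = X' := by
      intro X'; simp [F']
    -- meeting is not changed
    have hme : ∀ X ∈ F₂, ∀ Y ∈ F₂, (Meet X Y → Meet (X.erase a) (Y.erase a)) := by
      rintro X hX Y hY ⟨v, hvX, hvY⟩
      by_cases hva : v = a
      · subst hva
        exact ⟨b, mem_erase.2 ⟨hab.symm, hdom X hX hvX⟩, mem_erase.2 ⟨hab.symm, hdom Y hY hvY⟩⟩
      · exact ⟨v, mem_erase.2 ⟨hva, hvX⟩, mem_erase.2 ⟨hva, hvY⟩⟩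
    have hem : ∀ X Y : Finset W, Meet (X.erase a) (Y.erase a) → Meet X Y := by
      rintro X Y ⟨v, hvX, hvY⟩
      exact ⟨v, (mem_erase.1 hvX).2, (mem_erase.1 hvY).2⟩
    have hadj1 : ∀ X ∈ F₂, ∀ Y ∈ F₂, Adj X Y → Adj (X.erase a) (Y.erase a) := by
      intro X hX Y hY h
      exact Or.inr (hme X hX Y hY (hmeet X hX Y hY h))
    have hadj2 : ∀ X ∈ F₂, ∀ Y ∈ F₂, Adj (X.erase a) (Y.erase a) → Adj X Y := by
      intro X hX Y hY h
      rcases h with h | h
      · right
        have h1 := hcard2 X hX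
        have h2 : (X.erase a).Nonempty := by
          rw [← card_pos]
          have := pred_card_le_card_erase (s := X) (a := a)
          omega
        obtain ⟨v, hv⟩ := h2
        exact hem X Y ⟨v, hv, h ▸ hv⟩
      · exact Or.inr (hem X Y h)
    obtain ⟨t', ht', hconv'⟩ := ih (S.erase a) F' (by
        rw [card_erase_of_mem haS]; omega) (by
        intro X' hX'
        obtain ⟨X, hX, rfl⟩ := (hF' X').1 hX'
        exact erase_subset_erase _ (hF X (hF₂ hX))) (by
        -- Helly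
        intro G hG hGne hGp
        let G₂ := F₂.filter (fun X => X.erase a ∈ G)
        have hG₂ : ∀ X, X ∈ G₂ ↔ X ∈ F₂ ∧ X.erase a ∈ G := by
          intro X; simp [G₂]
        obtain ⟨X', hX'⟩ := hGne
        obtain ⟨X, hX, hXX'⟩ := (hF' X').1 (hG hX')
        have hXG : X ∈ G₂ := (hG₂ X).2 ⟨hX, by rw [hXX']; exact hX'⟩
        obtain ⟨v, hv⟩ := hH₂ G₂ (filter_subset _ _) ⟨X, hXG⟩ (by
          intro Y hY Z hZ
          obtain ⟨hY1, hY2⟩ := (hG₂ Y).1 hY
          obtain ⟨hZ1, hZ2⟩ := (hG₂ Z).1 hZ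
          exact hadj2 Y hY1 Z hZ1 (hGp _ hY2 _ hZ2))
        by_cases hva : v = a
        · subst hva
          refine ⟨b, fun Z' hZ' => ?_⟩
          obtain ⟨Z, hZ, rfl⟩ := (hF' Z').1 (hG hZ')
          exact mem_erase.2 ⟨hab.symm, hdom Z hZ (hv Z ((hG₂ Z).2 ⟨hZ, hZ'⟩))⟩
        · refine ⟨v, fun Z' hZ' => ?_⟩
          obtain ⟨Z, hZ, rfl⟩ := (hF' Z').1 (hG hZ')
          exact mem_erase.2 ⟨hva, hv Z ((hG₂ Z).2 ⟨hZ, hZ'⟩)⟩) (by
        -- chordality
        intro D' hD' C' hC' E' hE' Q' hQ' R' h1 h2 h3 h4 h5 h6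
        obtain ⟨D, hD, rfl⟩ := (hF' D').1 hD'
        obtain ⟨C, hC, rfl⟩ := (hF' C').1 hC'
        obtain ⟨E, hE, rfl⟩ := (hF' E').1 hE'
        obtain ⟨Q, hQ, rfl⟩ := (hF' Q').1 hQ'
        have hlift : ∀ R', Relation.ReflTransGen (Away Adj F' (D.erase a)) (Q.erase a) R' →
            ∃ R ∈ F₂, R.erase a = R' ∧ Relation.ReflTransGen (Away Adj F₂ D) Q R := by
          intro R' hR'
          induction hR' with
          | refl => exact ⟨Q, hQ, rfl, Relation.ReflTransGen.refl⟩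
          | @tail P' R' _ hstep ih2 =>
            obtain ⟨P, hP, hPP', hQP⟩ := ih2
            obtain ⟨⟨hP1, hP2⟩, ⟨hR1, hR2⟩, hPR⟩ := hstep
            obtain ⟨R, hR, hRR'⟩ := (hF' R').1 hR1
            refine ⟨R, hR, hRR', Relation.ReflTransGen.tail hQP ⟨⟨hP, ?_⟩, ⟨hR, ?_⟩, ?_⟩⟩
            · intro h
              apply hP2
              rw [← hPP']
              exact hadj1 P hP D hD h
            · intro h
              apply hR2
              rw [← hRR']
              exact hadj1 R hR D hD h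
            · refine hadj2 P hP R hR ?_
              rw [hPP', hRR']
              exact hPR
        obtain ⟨R, hR, hRR', hQR⟩ := hlift R' h4
        refine hadj1 C hC E hE (hch₂ D hD C hC E hE Q hQ R (hadj2 C hC D hD h1)
          (hadj2 E hE D hD h2) (fun h => h3 (hadj1 Q hQ D hD h)) hQR (hadj2 C hC Q hQ h5) ?_)
        refine hadj2 E hE R hR ?_
        rw [hRR']
        exact h6)
    -- the new tree
    let t : W → Option W := fun v => if v = a then some b else if t' v = some a then none else t' v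
    refine ⟨t, ?_, ?_⟩
    · intro Y hY
      by_cases hYa : (Y.erase a).Nonempty
      · obtain ⟨v, hv, hv'⟩ := ht' _ hYa
        obtain ⟨hva, hvY⟩ := mem_erase.1 hv
        refine ⟨v, hvY, fun u hu htv => ?_⟩
        simp only [t, if_neg hva] at htv
        split_ifs at htv with h1
        by_cases hua : u = a
        · subst hua; exact h1 htv
        · exact hv' u (mem_erase.2 ⟨hua, hu⟩) htv
      · obtain ⟨v, hv⟩ := hY
        have hva : ∀ u ∈ Y, u = a := by
          intro u hu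
          by_contra hua
          exact hYa ⟨u, mem_erase.2 ⟨hua, hu⟩⟩
        refine ⟨v, hv, fun u hu htv => ?_⟩
        rw [hva v hv, hva u hu] at htv
        simp only [t, if_true, Option.some.injEq] at htv
        exact hab htv.symm
    · intro X hX hXne
      by_cases hX2 : X ∈ F₂
      · have h2 : (X.erase a).Nonempty := by
          rw [← card_pos]
          have h1 := hcard2 X hX2
          have := pred_card_le_card_erase (s := X) (a := a)
          omega
        obtain ⟨y₀, hy₀, hex⟩ := hconv' (X.erase a) ((hF' _).2 ⟨X, hX2, rfl⟩) h2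
        refine ⟨y₀, (mem_erase.1 hy₀).2, fun v hv hvy => ?_⟩
        by_cases hva : v = a
        · subst hva
          exact ⟨b, hdom X hX2 hv, by simp [t]⟩
        · obtain ⟨u, hu, htu⟩ := hex v (mem_erase.2 ⟨hva, hv⟩) hvy
          obtain ⟨hua, huX⟩ := mem_erase.1 hu
          refine ⟨u, huX, ?_⟩
          simp only [t, if_neg hva]
          rw [if_neg, htu]
          rw [htu]
          simpa using hua
      · obtain ⟨y₀, rfl⟩ := hsmall X hX hX2 hXne
        refine ⟨y₀, by simp, fun v hv hvy => ?_⟩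
        exact absurd (by simpa using hv) hvy

end Tree

end Pool.Agent.LibE457k
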