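import Pool.Agent.Lib_MP_e457e7_co_k.Split

/-!
From balanced splitting of two `k`-good vectors to `l` of them.
-/

set_option autoImplicit false
set_option linter.unusedSectionVars false

namespace Pool.Agent.LibE457k

open Finset

variable {V A : Type*} [Fintype V] [DecidableEq V] [Fintype A] [DecidableEq A]

theorem good_of_arbs {tail head : A → V} {r : V} {k : ℕ} {B : Fin k → Finset A}
    (hB : ∀ i, IsArb tail head r (B i)) :
    Good tail head r k (fun a => (univ.filter (fun i => a ∈ B i)).card) := by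
  classical
  have hswap : ∀ s : Finset A, ∑ a ∈ s, (univ.filter (fun i => a ∈ B i)).card =
      ∑ i, (s.filter (fun a => a ∈ B i)).card := by
    intro s
    simp only [card_filter]
    exact sum_comm
  refine ⟨?_, ?_, ?_⟩
  · intro a ha
    rw [card_eq_zero]
    refine filter_eq_empty_iff.2 fun i _ h => ?_
    exact (hB i).head_ne a h ha
  · intro v hv
    rw [hswap]
    have : ∀ i, ((univ.filter (fun a => head a = v)).filter (fun a => a ∈ B i)).card = 1 := by
      intro i
      obtain ⟨b, ⟨hb1, hb2⟩, hb3⟩ := (hB i).uniq v hv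
      rw [card_eq_one]
      refine ⟨b, ?_⟩
      ext c
      simp only [mem_filter, mem_univ, true_and, mem_singleton]
      constructor
      · rintro ⟨h1, h2⟩
        exact hb3 c ⟨h2, h1⟩
      · rintro rfl
        exact ⟨hb2, hb1⟩
    simp [this]
  · intro X hX hr
    unfold rho
    rw [hswap]
    have h1 : ∑ _i : Fin k, 1 ≤ ∑ i, ((univ.filter (fun a => head a ∈ X ∧ tail a ∉ X)).filter
        (fun a => a ∈ B i)).card := by
      refine sum_le_sum fun i _ => ?_
      obtain ⟨a, ha, h2⟩ := (hB i).enters hX hr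
      exact card_pos.2 ⟨a, by simp [ha, h2]⟩
    simpa using h1

theorem sum_two {ι : Type*} [Fintype ι] [DecidableEq ι] {i j : ι} (hij : i ≠ j) (f : ι → ℕ) :
    ∑ m, f m = f i + f j + ∑ m ∈ ({i, j} : Finset ι)ᶜ, f m := by
  rw [← sum_add_sum_compl ({i, j} : Finset ι) f, sum_pair hij]

theorem sq_le_of_balanced {p q u w : ℕ} (h : p + q = u + w) (h1 : p ≤ q + 1) (h2 : q ≤ p + 1) :
    p * p + q * q ≤ u * u + w * w := by
  rcases Nat.lt_trichotomy u w with h3 | h3 | h3
  · obtain ⟨d, rfl⟩ : ∃ d, w = u + (d + 1) := ⟨w - u - 1, by omega⟩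
    rcases (by omega : p = q ∨ p = q + 1 ∨ q = p + 1) with h4 | h4 | h4
    · subst h4; nlinarith
    · subst h4; nlinarith
    · subst h4; nlinarith
  · subst h3
    have : p = q := by omega
    subst this
    have : p = u := by omega
    subst this
    exact le_rfl
  · obtain ⟨d, rfl⟩ : ∃ d, u = w + (d + 1) := ⟨u - w - 1, by omega⟩
    rcases (by omega : p = q ∨ p = q + 1 ∨ q = p + 1) with h4 | h4 | h4
    · subst h4; nlinarith
    · subst h4; nlinarith
    · subst h4; nlinarith

theorem sq_lt_of_balanced {p q u : ℕ} (h : p + q = u) (hu : 2 ≤ u) (h1 : p ≤ q + 1)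
    (h2 : q ≤ p + 1) : p * p + q * q < u * u := by
  subst h
  have hp : 1 ≤ p := by omega
  have hq : 1 ≤ q := by omega
  nlinarith

/-- Reduction to vectors with entries in `{0,1}`. -/
theorem reduce {tail head : A → V} {r : V} {k l : ℕ} {h : {v : V // v ≠ r} → ℕ}
    (hk : ∑ v, h v ≤ k + 2) {c : A → ℕ} (hc : ∀ a, c a ≤ l)
    (hh : ∀ v : {v : V // v ≠ r}, (univ.filter (fun u : V => u ≠ v.1 ∧
      ∃ a, tail a = u ∧ head a = v.1 ∧ 0 < c a)).card ≤ 2 * h v + 1) :
    ∀ n : ℕ, ∀ x : Fin l → A → ℕ, (∀ i, Good tail head r k (x i)) →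
      (∀ a, ∑ i, x i a ≤ c a) → (∑ i, ∑ a, x i a * x i a) ≤ n →
      ∃ x' : Fin l → A → ℕ, (∀ i, Good tail head r k (x' i)) ∧
        (∀ a, ∑ i, x' i a ≤ c a) ∧ ∀ i a, x' i a ≤ 1 := by
  classical
  intro n
  induction n with
  | zero =>
    intro x hx hxc hn
    refine ⟨x, hx, hxc, fun i a => ?_⟩
    have h1 : ∑ i, ∑ a, x i a * x i a = 0 := by omega
    have h2 := (sum_eq_zero_iff.1 h1) i (mem_univ _)
    have h3 := (sum_eq_zero_iff.1 h2) a (mem_univ _)
    have h4 : x i a = 0 := by
      rcases Nat.mul_eq_zero.1 h3 with h | h <;> exact h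
    omega
  | succ n ih =>
    intro x hx hxc hn
    by_cases hall : ∀ i a, x i a ≤ 1
    · exact ⟨x, hx, hxc, hall⟩
    push Not at hall
    obtain ⟨i, a, hia⟩ := hall
    have hj : ∃ j, x j a = 0 := by
      by_contra hcon
      push Not at hcon
      have h1 : ∑ m : Fin l, (1 + if m = i then 1 else 0) ≤ ∑ m, x m a := by
        refine sum_le_sum fun m _ => ?_
        have := hcon m
        split_ifs with h
        · subst h; omega
        · omega
      rw [sum_add_distrib, sum_ite_eq' univ i, sum_const, card_univ, Fintype.card_fin] at h1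
      simp only [mem_univ, if_true, smul_eq_mul, mul_one] at h1
      have h2 := hxc a
      have h3 := hc a
      omega
    obtain ⟨j, hja⟩ := hj
    have hij : i ≠ j := by
      rintro rfl
      omega
    have hle : ∀ b, x i b + x j b ≤ c b := by
      intro b
      have h1 := hxc b
      rw [sum_two hij (fun m => x m b)] at h1
      omega
    obtain ⟨p, q, hp, hq, hpq, hbal⟩ := split hk (hx i) (hx j) (by
      intro v
      refine le_trans (card_le_card ?_) (hh v)
      intro u hu
      obtain ⟨_, h1, b, h2, h3, h4⟩ := mem_filter.1 hu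
      refine mem_filter.2 ⟨mem_univ _, h1, b, h2, h3, ?_⟩
      have := hle b
      omega)
    let x' : Fin l → A → ℕ := Function.update (Function.update x i p) j q
    have hx'i : x' i = p := by simp [x', hij]
    have hx'j : x' j = q := by simp [x']
    have hx'm : ∀ m, m ∉ ({i, j} : Finset (Fin l)) → x' m = x m := by
      intro m hm
      simp only [mem_insert, mem_singleton, not_or] at hm
      simp [x', hm.1, hm.2]
    have hsame : ∀ f : (A → ℕ) → ℕ, ∑ m ∈ ({i, j} : Finset (Fin l))ᶜ, f (x' m) =
        ∑ m ∈ ({i, j} : Finset (Fin l))ᶜ, f (x m) := by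
      intro f
      refine sum_congr rfl fun m hm => ?_
      rw [hx'm m (mem_compl.1 hm)]
    refine ih x' ?_ ?_ ?_
    · intro m
      by_cases hm : m ∈ ({i, j} : Finset (Fin l))
      · rcases mem_insert.1 hm with rfl | hm
        · rw [hx'i]; exact hp
        · have : m = j := by simpa using hm
          subst this
          rw [hx'j]; exact hq
      · rw [hx'm m hm]; exact hx m
    · intro b
      refine le_trans (le_of_eq ?_) (hxc b)
      rw [sum_two hij (fun m => x' m b), sum_two hij (fun m => x m b)]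
      have h1 := hsame (fun z => z b)
      simp only [h1, hx'i, hx'j]
      have := hpq b
      omega
    · have hlt : ∑ m, ∑ b, x' m b * x' m b < ∑ m, ∑ b, x m b * x m b := by
        rw [sum_two hij (fun m => ∑ b, x' m b * x' m b),
          sum_two hij (fun m => ∑ b, x m b * x m b)]
        have h1 := hsame (fun z => ∑ b, z b * z b)
        simp only [h1, hx'i, hx'j]
        refine Nat.add_lt_add_right ?_ _
        rw [← sum_add_distrib, ← sum_add_distrib]
        refine sum_lt_sum (fun b _ => ?_) ⟨a, mem_univ _, ?_⟩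
        · exact sq_le_of_balanced (hpq b) (hbal b).1 (hbal b).2
        · have h2 := hpq a
          rw [hja, add_zero] at h2
          rw [hja]
          simpa using sq_lt_of_balanced h2 (by omega) (hbal a).1 (hbal a).2
      omega

/-- Packing theorem. -/
theorem packing {tail head : A → V} {r : V} {c : A → ℕ} {k l : ℕ}
    {h : {v : V // v ≠ r} → ℕ} (hk : ∑ v, h v ≤ k + 2) (hc : ∀ a, c a ≤ l)
    (hh : ∀ v : {v : V // v ≠ r}, (univ.filter (fun u : V => u ≠ v.1 ∧
      ∃ a, tail a = u ∧ head a = v.1 ∧ 0 < c a)).card ≤ 2 * h v + 1)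
    (T : Fin (k * l) → Finset A) (hT : ∀ i, IsArb tail head r (T i))
    (hTc : ∀ a, (univ.filter (fun i => a ∈ T i)).card ≤ c a) :
    ∃ B : Fin l → Fin k → Finset A,
      (∀ i j, IsArb tail head r (B i j)) ∧
      (∀ i : Fin l, ∀ j j' : Fin k, j ≠ j' → Disjoint (B i j) (B i j')) ∧
      ∀ a : A, (univ.filter (fun p : Fin l × Fin k => a ∈ B p.1 p.2)).card ≤ c a := by
  classical
  let x : Fin l → A → ℕ := fun i a =>
    (univ.filter (fun j : Fin k => a ∈ T (finProdFinEquiv (j, i)))).card
  have hx : ∀ i, Good tail head r k (x i) := fun i => good_of_arbs (fun j => hT _)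
  have hxc : ∀ a, ∑ i, x i a ≤ c a := by
    intro a
    refine le_trans (le_of_eq ?_) (hTc a)
    simp only [x, card_filter]
    rw [sum_comm, ← Fintype.sum_prod_type' (f := fun (j : Fin k) (i : Fin l) =>
      if a ∈ T (finProdFinEquiv (j, i)) then 1 else 0)]
    exact Fintype.sum_equiv finProdFinEquiv _ _ (fun p => rfl)
  obtain ⟨x', hx', hxc', hx1⟩ := reduce hk hc hh _ x hx hxc le_rfl
  choose B hB hBx using fun i => edmonds k (x' i) (hx' i)
  refine ⟨B, hB, ?_, ?_⟩
  · intro i j j' hjj
    rw [Finset.disjoint_left]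
    intro a ha ha'
    have h1 : (univ.filter (fun j => a ∈ B i j)).card ≤ 1 := by
      rw [hBx i a]; exact hx1 i a
    exact hjj (card_le_one.1 h1 j (by simp [ha]) j' (by simp [ha']))
  · intro a
    have h1 : (univ.filter (fun p : Fin l × Fin k => a ∈ B p.1 p.2)).card =
        ∑ i, (univ.filter (fun j => a ∈ B i j)).card := by
      simp only [card_filter]
      rw [Fintype.sum_prod_type]
    rw [h1]
    simp only [hBx]
    exact hxc' a

end Pool.Agent.LibE457k
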