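import Mathlib

/-!
Parent functions `p : W → Option W` of rooted forests and the slots of one rooted
arborescence along another one.
-/

set_option autoImplicit false
set_option linter.unusedSectionVars false

namespace Pool.Agent.LibE457k

open Finset

variable {W : Type*}

/-- `p : W → Option W` is the parent function of an arborescence on `W ∪ {root}`
(`none` means: the parent is the root). -/
def Rooted (p : W → Option W) : Prop :=
  ∀ Y : Finset W, Y.Nonempty → ∃ v ∈ Y, ∀ u ∈ Y, p v ≠ some u

/-- `w` is an ancestor of `v`, or `v` itself. -/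
def Anc (p : W → Option W) (v w : W) : Prop :=
  Relation.ReflTransGen (fun x y => p x = some y) v w

theorem anc_iff (p : W → Option W) (v w : W) :
    Anc p v w ↔ v = w ∨ ∃ u, p v = some u ∧ Anc p u w := by
  unfold Anc
  constructor
  · intro h
    rcases Relation.ReflTransGen.cases_head h with h | ⟨u, hu, h⟩
    · exact Or.inl h
    · exact Or.inr ⟨u, hu, h⟩
  · rintro (h | ⟨u, hu, h⟩)
    · subst h; exact Relation.ReflTransGen.refl
    · exact Relation.ReflTransGen.head hu h

variable [Fintype W] [DecidableEq W]

theorem Rooted.ne_self {p : W → Option W} (hp : Rooted p) (v : W) : p v ≠ some v := by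
  obtain ⟨x, hx, h⟩ := hp {v} (by simp)
  simp at hx
  subst hx
  exact h x (by simp)

theorem Rooted.acyclic {p : W → Option W} (hp : Rooted p) {v u : W} (h1 : p v = some u)
    (h2 : Anc p u v) : False := by
  classical
  let Y : Finset W := univ.filter (fun x => Anc p v x ∧ Anc p x v)
  have hv : v ∈ Y := by
    simp only [Y, mem_filter, mem_univ, true_and]
    exact ⟨Relation.ReflTransGen.refl, Relation.ReflTransGen.refl⟩
  obtain ⟨x, hx, h⟩ := hp Y ⟨v, hv⟩
  simp only [Y, mem_filter, mem_univ, true_and] at hx
  obtain ⟨hx1, hx2⟩ := hx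
  rcases (anc_iff p x v).1 hx2 with h3 | ⟨y, hy, h3⟩
  · subst h3
    refine h u ?_ h1
    simp only [Y, mem_filter, mem_univ, true_and]
    exact ⟨Relation.ReflTransGen.single h1, h2⟩
  · refine h y ?_ hy
    simp only [Y, mem_filter, mem_univ, true_and]
    exact ⟨Relation.ReflTransGen.tail hx1 hy, h3⟩

/-- the matrix of a parent function -/
def PM (p : W → Option W) : Matrix W W ℚ := Matrix.of fun v w => if p v = some w then 1 else 0

open Classical in
/-- the matrix of the ancestor relation -/
noncomputable def AM (p : W → Option W) : Matrix W W ℚ :=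
  Matrix.of fun v w => if Anc p v w then 1 else 0

/-- summation against a row of the parent matrix -/
theorem PM_sum (p : W → Option W) (v : W) (x : W → ℚ) :
    ∑ w, PM p v w * x w = match p v with | none => 0 | some u => x u := by
  unfold PM
  cases h : p v with
  | none => simp [h]
  | some u =>
    simp [h]

theorem det_one_sub_PM_ne_zero {p : W → Option W} (hp : Rooted p) :
    (1 - PM p).det ≠ 0 := by
  intro h0
  obtain ⟨x, hx0, hx⟩ := Matrix.exists_mulVec_eq_zero_iff.2 h0
  apply hx0
  by_contra hne
  have hY : (univ.filter (fun v => x v ≠ 0)).Nonempty := by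
    by_contra hY
    apply hne
    funext v
    by_contra hv
    exact hY ⟨v, by simpa using hv⟩
  obtain ⟨v, hv, h⟩ := hp _ hY
  simp only [mem_filter, mem_univ, true_and] at hv h
  have h1 := congrFun hx v
  rw [Matrix.sub_mulVec, Matrix.one_mulVec] at h1
  simp only [Pi.sub_apply, Pi.zero_apply] at h1
  have h2 : (PM p).mulVec x v = match p v with | none => 0 | some u => x u := by
    rw [← PM_sum]; rfl
  rw [h2] at h1
  cases h3 : p v with
  | none => rw [h3] at h1; simp at h1; exact hv h1
  | some u =>
    rw [h3] at h1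
    simp only at h1
    have : x u ≠ 0 := by
      intro h4
      rw [h4, sub_zero] at h1
      exact hv h1
    exact h u this h3

theorem one_sub_PM_mul_AM {p : W → Option W} (hp : Rooted p) : (1 - PM p) * AM p = 1 := by
  classical
  ext v w
  rw [sub_mul, one_mul, Matrix.sub_apply, Matrix.mul_apply, PM_sum, Matrix.one_apply]
  have hA : ∀ x, AM p x w = if Anc p x w then (1 : ℚ) else 0 := fun x => by
    unfold AM; simp
  rw [hA]
  cases h : p v with
  | none =>
    simp only [sub_zero]
    have : Anc p v w ↔ v = w := by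
      rw [anc_iff]; simp [h]
    simp [this]
  | some u =>
    simp only [hA]
    have h1 : Anc p v w ↔ (v = w ∨ Anc p u w) := by
      rw [anc_iff]; simp [h]
    by_cases h2 : v = w
    · subst h2
      have h3 : ¬ Anc p u v := fun h3 => hp.acyclic h h3
      simp [h1, h3]
    · simp [h1, h2]

open Classical in
/-- Is `w` an ancestor-or-self of the node `o` (`none` = root)? -/
noncomputable def ancO (p : W → Option W) (o : Option W) (w : W) : Prop :=
  ∃ u, o = some u ∧ Anc p u w

/-- **Slots.** For two arborescences `p` (parents) and `t` there is a permutation `σ` of the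
non-root nodes such that the arc `p v → v` crosses the `t`-subtree of `σ v`. -/
theorem exists_slots {p t : W → Option W} (hp : Rooted p) (ht : Rooted t) :
    ∃ σ : Equiv.Perm W, ∀ v, ¬ (Anc t v (σ v) ↔ ancO t (p v) (σ v)) := by
  classical
  have hdet : ((1 - PM p) * AM t).det ≠ 0 := by
    rw [Matrix.det_mul]
    refine mul_ne_zero (det_one_sub_PM_ne_zero hp) ?_
    intro h
    have h1 := congrArg Matrix.det (one_sub_PM_mul_AM ht)
    rw [Matrix.det_mul, h, mul_zero, Matrix.det_one] at h1
    exact zero_ne_one h1
  have hex : ∃ σ : Equiv.Perm W, ∀ v, ((1 - PM p) * AM t) v (σ v) ≠ 0 := by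
    by_contra hcon
    push Not at hcon
    apply hdet
    rw [← Matrix.det_transpose, Matrix.det_apply]
    refine Finset.sum_eq_zero fun σ _ => ?_
    obtain ⟨v, hv⟩ := hcon σ
    have : ∏ i, ((1 - PM p) * AM t).transpose (σ i) i = 0 :=
      Finset.prod_eq_zero (mem_univ v) (by simpa [Matrix.transpose_apply] using hv)
    rw [this, smul_zero]
  obtain ⟨σ, hσ⟩ := hex
  refine ⟨σ, fun v hiff => hσ v ?_⟩
  rw [sub_mul, one_mul, Matrix.sub_apply, Matrix.mul_apply, PM_sum]
  have hA : ∀ x, AM t x (σ v) = if Anc t x (σ v) then (1 : ℚ) else 0 := fun x => by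
    unfold AM; simp
  rw [hA]
  cases h : p v with
  | none =>
    have : ¬ Anc t v (σ v) := by
      rw [hiff, h]; rintro ⟨u, hu, _⟩; simp at hu
    simp [this]
  | some u =>
    have : Anc t v (σ v) ↔ Anc t u (σ v) := by
      rw [hiff, h]
      constructor
      · rintro ⟨u', hu', h'⟩
        simp at hu'; subst hu'; exact h'
      · intro h'; exact ⟨u, rfl, h'⟩
    simp [hA, this]

/-- If all nodes of `Y` but `y₀` have their `t`-parent in `Y`, then an arc with both ends in
`Y` crosses only `t`-subtrees of nodes in `Y` other than `y₀`. -/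
theorem slot_mem {t : W → Option W} (ht : Rooted t) {Y : Finset W} {y₀ : W} (hy₀ : y₀ ∈ Y)
    (hconv : ∀ v ∈ Y, v ≠ y₀ → ∃ u ∈ Y, t v = some u) :
    ∀ u ∈ Y, ∀ v ∈ Y, ∀ w, Anc t v w → ¬ Anc t u w → w ∈ Y ∧ w ≠ y₀ := by
  -- every `v ∈ Y` has `y₀` as ancestor
  have h1 : ∀ v ∈ Y, Anc t v y₀ := by
    classical
    by_contra hcon
    push Not at hcon
    obtain ⟨v, hv, hv'⟩ := hcon
    obtain ⟨x, hx, h⟩ := ht (Y.filter (fun x => ¬ Anc t x y₀)) ⟨v, by simp [hv, hv']⟩
    simp only [mem_filter] at hx h
    have hne : x ≠ y₀ := by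
      rintro rfl
      exact hx.2 Relation.ReflTransGen.refl
    obtain ⟨u, hu, hxu⟩ := hconv x hx.1 hne
    refine h u ⟨hu, fun hua => hx.2 ?_⟩ hxu
    exact Relation.ReflTransGen.head hxu hua
  -- every ancestor of `v ∈ Y` is in `Y - y₀` or an ancestor of `y₀`
  have h2 : ∀ v w, Anc t v w → v ∈ Y → (w ∈ Y ∧ w ≠ y₀) ∨ Anc t y₀ w := by
    intro v w hvw
    induction hvw using Relation.ReflTransGen.head_induction_on with
    | refl =>
      intro hv
      by_cases h : w = y₀
      · subst h; exact Or.inr Relation.ReflTransGen.refl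
      · exact Or.inl ⟨hv, h⟩
    | head hab hbc ih =>
      rename_i a b
      intro ha
      by_cases h : a = y₀
      · subst h
        exact Or.inr (Relation.ReflTransGen.head hab hbc)
      · obtain ⟨u, hu, hau⟩ := hconv a ha h
        rw [hab] at hau
        simp at hau
        subst hau
        exact ih hu
  intro u hu v hv w hvw huw
  rcases h2 v w hvw hv with h | h
  · exact h
  · exact absurd (Relation.ReflTransGen.trans (h1 u hu) h) huw

end Pool.Agent.LibE457k
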