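import Pool.Agent.Lib_MP_e457e7_co_k.Tree
import Pool.Agent.Lib_MP_e457e7_co_k.Edmonds

/-!
Balanced splitting of the sum of two `k`-good vectors.
-/

set_option autoImplicit false
set_option linter.unusedSectionVars false

namespace Pool.Agent.LibE457k

open Finset

variable {V A : Type*} [Fintype V] [DecidableEq V] [Fintype A] [DecidableEq A]

theorem Good.add {tail head : A → V} {r : V} {k k' : ℕ} {x y : A → ℕ}
    (hx : Good tail head r k x) (hy : Good tail head r k' y) :
    Good tail head r (k + k') (fun a => x a + y a) := by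
  refine ⟨?_, ?_, ?_⟩
  · intro a ha
    simp [hx.root a ha, hy.root a ha]
  · intro v hv
    rw [sum_add_distrib, hx.deg v hv, hy.deg v hv]
  · intro X hX hr
    have h1 := hx.cut X hX hr
    have h2 := hy.cut X hX hr
    unfold rho at *
    rw [sum_add_distrib]
    omega

theorem split {tail head : A → V} {r : V} {k : ℕ} {h : {v : V // v ≠ r} → ℕ}
    (hk : ∑ v, h v ≤ k + 2)
    {x y : A → ℕ} (hx : Good tail head r k x) (hy : Good tail head r k y)
    (hh : ∀ v : {v : V // v ≠ r}, (univ.filter (fun u : V => u ≠ v.1 ∧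
      ∃ a, tail a = u ∧ head a = v.1 ∧ 0 < x a + y a)).card ≤ 2 * h v + 1) :
    ∃ x' y' : A → ℕ, Good tail head r k x' ∧ Good tail head r k y' ∧
      (∀ a, x' a + y' a = x a + y a) ∧ ∀ a, x' a ≤ y' a + 1 ∧ y' a ≤ x' a + 1 := by
  classical
  have hz := hx.add hy
  rw [← two_mul] at hz
  obtain ⟨B, hB, hBz⟩ := edmonds (2 * k) _ hz
  -- the arc with head `v` in `B i`
  choose α hα1 hα2 using fun (i : Fin (2 * k)) (v : {v : V // v ≠ r}) => (hB i).uniq v.1 v.2
  have hαmem : ∀ i v, α i v ∈ B i := fun i v => (hα1 i v).1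
  have hαhead : ∀ i v, head (α i v) = v.1 := fun i v => (hα1 i v).2
  have hαuniq : ∀ i v a, a ∈ B i → head a = v.1 → a = α i v := fun i v a h1 h2 =>
    hα2 i v a ⟨h1, h2⟩
  let π : Fin (2 * k) → {v : V // v ≠ r} → Option {v : V // v ≠ r} := fun i v =>
    if h : tail (α i v) = r then none else some ⟨tail (α i v), h⟩
  have hπsome : ∀ i v u, π i v = some u ↔ tail (α i v) = u.1 := by
    intro i v u
    simp only [π]
    split_ifs with h
    · simp only [false_iff]
      rw [h]
      exact fun h => u.2 h.symm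
    · simp only [Option.some.injEq]
      constructor
      · intro h; rw [← h]
      · intro h; exact Subtype.ext h
  have hπ : ∀ i, Rooted (π i) := by
    intro i Y hY
    have hX : (Y.map (Function.Embedding.subtype _)).Nonempty := hY.map
    have hr : r ∉ Y.map (Function.Embedding.subtype _) := by
      intro h
      obtain ⟨u, _, hu⟩ := mem_map.1 h
      exact u.2 hu
    obtain ⟨a, ha, h1, h2⟩ := (hB i).enters hX hr
    obtain ⟨v, hv, hva⟩ := mem_map.1 h1
    refine ⟨v, hv, fun u hu h => h2 ?_⟩
    have h3 : a = α i v := hαuniq i v a ha hva.symm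
    rw [hπsome] at h
    rw [h3, h]
    exact mem_map.2 ⟨u, hu, rfl⟩
  obtain ⟨t, ht, hconv⟩ := exists_host (by simp) hk hπ
  have hh' : ∀ v, (univ.image (fun i => π i v)).card ≤ 2 * h v + 1 := by
    intro v
    refine le_trans ?_ (hh v)
    let φ : Option {v : V // v ≠ r} → V := fun o => match o with | none => r | some u => u.1
    have hφ : ∀ i, φ (π i v) = tail (α i v) := by
      intro i
      by_cases h : tail (α i v) = r
      · simp only [φ, π, dif_pos h]
        exact h.symm
      · simp only [φ, π, dif_neg h]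
    have hφinj : Function.Injective φ := by
      intro o o' hoo
      cases o with
      | none =>
        cases o' with
        | none => rfl
        | some u => exact absurd hoo.symm u.2
      | some u =>
        cases o' with
        | none => exact absurd hoo u.2
        | some u' => exact congrArg some (Subtype.ext hoo)
    refine card_le_card_of_injOn φ ?_ (hφinj.injOn)
    intro o ho
    obtain ⟨i, _, rfl⟩ := mem_image.1 (mem_coe.1 ho)
    refine mem_coe.2 (mem_filter.2 ⟨mem_univ _, ?_, α i v, (hφ i).symm, hαhead i v, ?_⟩)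
    · rw [hφ]
      intro h
      exact (hπ i).ne_self v ((hπsome i v v).2 h)
    · rw [← hBz (α i v)]
      exact card_pos.2 ⟨i, by simp [hαmem i v]⟩
  obtain ⟨χ, hχ1, hχ2, hχ3⟩ := core_of_tree (by simp) π hπ α (by
    intro v i j hij
    simp only [π, hij]) h hh' t ht hconv
  let cnt : Bool → A → ℕ := fun b a => (univ.filter (fun p : Fin (2 * k) × {v : V // v ≠ r} =>
    α p.1 p.2 = a ∧ χ p = b)).card
  have hcnt0 : ∀ b a, head a = r → cnt b a = 0 := by
    intro b a ha
    simp only [cnt, card_eq_zero]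
    refine filter_eq_empty_iff.2 ?_
    rintro p _ ⟨h, _⟩
    have := hαhead p.1 p.2
    rw [h, ha] at this
    exact p.2.2 this.symm
  have hcnt1 : ∀ b a (v : {v : V // v ≠ r}), head a = v.1 →
      cnt b a = (univ.filter (fun i => α i v = a ∧ χ (i, v) = b)).card := by
    intro b a v hv
    refine card_bij (fun p _ => p.1) ?_ ?_ ?_
    · intro p hp
      obtain ⟨_, h1, h2⟩ := mem_filter.1 hp
      have h3 : p.2 = v := by
        apply Subtype.ext
        rw [← hv, ← h1, hαhead]
      have h4 : p = (p.1, v) := by rw [← h3]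
      refine mem_filter.2 ⟨mem_univ _, ?_, ?_⟩
      · rw [← h3]; exact h1
      · rw [← h4]; exact h2
    · intro p hp q hq hpq
      obtain ⟨_, h1, _⟩ := mem_filter.1 hp
      obtain ⟨_, h2, _⟩ := mem_filter.1 hq
      refine Prod.ext hpq ?_
      apply Subtype.ext
      rw [← hαhead p.1 p.2, ← hαhead q.1 q.2, h1, h2]
    · intro i hi
      obtain ⟨_, h1, h2⟩ := mem_filter.1 hi
      exact ⟨(i, v), mem_filter.2 ⟨mem_univ _, h1, h2⟩, rfl⟩
  have hsum : ∀ b (Q : A → Prop) [DecidablePred Q], ∑ a ∈ univ.filter Q, cnt b a =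
      (univ.filter (fun p : Fin (2 * k) × {v : V // v ≠ r} => Q (α p.1 p.2) ∧ χ p = b)).card := by
    intro b Q _
    rw [card_eq_sum_card_fiberwise (f := fun p => α p.1 p.2) (t := univ.filter Q)]
    · refine sum_congr rfl fun a ha => ?_
      have hQ : Q a := (mem_filter.1 ha).2
      simp only [cnt]
      congr 1
      ext p
      simp only [mem_filter, mem_univ, true_and]
      constructor
      · rintro ⟨h1, h2⟩
        exact ⟨⟨h1 ▸ hQ, h2⟩, h1⟩
      · rintro ⟨⟨_, h2⟩, h1⟩
        exact ⟨h1, h2⟩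
    · intro p hp
      have := (mem_filter.1 (mem_coe.1 hp)).2.1
      exact mem_coe.2 (mem_filter.2 ⟨mem_univ _, this⟩)
  have hgood : ∀ b, Good tail head r k (cnt b) := by
    intro b
    refine ⟨hcnt0 b, ?_, ?_⟩
    · intro v hv
      rw [hsum b (fun a => head a = v)]
      refine Eq.trans ?_ (hχ1 b ⟨v, hv⟩)
      refine card_bij (fun p _ => p.1) ?_ ?_ ?_
      · intro p hp
        obtain ⟨_, h1, h2⟩ := mem_filter.1 hp
        have h3 : p.2 = ⟨v, hv⟩ := by
          apply Subtype.ext
          rw [← hαhead p.1 p.2, h1]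
        have h4 : p = (p.1, ⟨v, hv⟩) := by rw [← h3]
        refine mem_filter.2 ⟨mem_univ _, ?_⟩
        rw [← h4]; exact h2
      · intro p hp q hq hpq
        obtain ⟨_, h1, _⟩ := mem_filter.1 hp
        obtain ⟨_, h2, _⟩ := mem_filter.1 hq
        refine Prod.ext hpq ?_
        apply Subtype.ext
        rw [← hαhead p.1 p.2, ← hαhead q.1 q.2, h1, h2]
      · intro i hi
        obtain ⟨_, h2⟩ := mem_filter.1 hi
        exact ⟨(i, ⟨v, hv⟩), mem_filter.2 ⟨mem_univ _, hαhead _ _, h2⟩, rfl⟩
    · intro X hX hrX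
      unfold rho
      rw [hsum b (fun a => head a ∈ X ∧ tail a ∉ X)]
      set Y : Finset {v : V // v ≠ r} := univ.filter (fun w => w.1 ∈ X) with hY
      have hYne : Y.Nonempty := by
        obtain ⟨v, hv⟩ := hX
        exact ⟨⟨v, fun h => hrX (h ▸ hv)⟩, by simp [hY, hv]⟩
      have h1 := hχ3 b Y hYne
      have h2 : (univ.filter (fun p : Fin (2 * k) × {v : V // v ≠ r} =>
          p.2 ∈ Y ∧ χ p = b)).card = k * Y.card := by
        have h3 : (univ.filter (fun p : Fin (2 * k) × {v : V // v ≠ r} =>
            p.2 ∈ Y ∧ χ p = b)).card = (Y.sigma (fun v => univ.filter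
              (fun i => χ (i, v) = b))).card := by
          refine card_bij (fun p _ => (⟨p.2, p.1⟩ : (_ : {v : V // v ≠ r}) × Fin (2 * k)))
            ?_ ?_ ?_
          · intro p hp
            obtain ⟨_, h1, h2⟩ := mem_filter.1 hp
            exact mem_sigma.2 ⟨h1, mem_filter.2 ⟨mem_univ _, h2⟩⟩
          · intro p _ q _ hpq
            simp only [Sigma.mk.injEq, heq_eq_eq] at hpq
            exact Prod.ext hpq.2 hpq.1
          · rintro ⟨v, i⟩ hx
            obtain ⟨h1, h2⟩ := mem_sigma.1 hx
            exact ⟨(i, v), mem_filter.2 ⟨mem_univ _, h1, (mem_filter.1 h2).2⟩, rfl⟩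
        rw [h3, card_sigma]
        simp only [hχ1]
        rw [sum_const, smul_eq_mul, mul_comm]
      have h3 : (univ.filter (fun p : Fin (2 * k) × {v : V // v ≠ r} =>
          p.2 ∈ Y ∧ χ p = b)) ⊆
          (univ.filter (fun p : Fin (2 * k) × {v : V // v ≠ r} =>
            (head (α p.1 p.2) ∈ X ∧ tail (α p.1 p.2) ∉ X) ∧ χ p = b)) ∪
          ((inn π Y).filter (fun p => χ p = b)) := by
        intro p hp
        obtain ⟨_, h4, h5⟩ := mem_filter.1 hp
        have h6 : p.2.1 ∈ X := by simpa [hY] using h4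
        by_cases h7 : tail (α p.1 p.2) ∈ X
        · refine mem_union_right _ (mem_filter.2 ⟨mem_inn.2 ⟨h4, ?_⟩, h5⟩)
          have h8 : tail (α p.1 p.2) ≠ r := fun h => hrX (h ▸ h7)
          refine ⟨⟨tail (α p.1 p.2), h8⟩, by simp [hY, h7], ?_⟩
          rw [hπsome]
        · refine mem_union_left _ (mem_filter.2 ⟨mem_univ _, ⟨?_, h7⟩, h5⟩)
          rw [hαhead]; exact h6
      have h4 := (card_le_card h3).trans (card_union_le _ _)
      rw [h2] at h4
      have h5 : 1 ≤ Y.card := card_pos.2 hYne
      obtain ⟨m, hm⟩ : ∃ m, Y.card = m + 1 := ⟨Y.card - 1, by omega⟩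
      rw [hm] at h4 h1
      simp only [Nat.add_sub_cancel] at h1
      rw [mul_add, mul_one] at h4
      omega
  refine ⟨cnt true, cnt false, hgood true, hgood false, ?_, ?_⟩
  · intro a
    by_cases ha : head a = r
    · rw [hcnt0 _ a ha, hcnt0 _ a ha]
      have := hz.root a ha
      simpa using this.symm
    · rw [hcnt1 true a ⟨head a, ha⟩ rfl, hcnt1 false a ⟨head a, ha⟩ rfl]
      rw [← hBz a]
      have h1 : (univ.filter (fun i => a ∈ B i)) =
          univ.filter (fun i => α i ⟨head a, ha⟩ = a) := by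
        refine filter_congr fun i _ => ?_
        constructor
        · intro h
          exact (hαuniq i ⟨head a, ha⟩ a h rfl).symm
        · intro h
          rw [← h]
          exact hαmem _ _
      rw [h1, ← card_filter_add_card_filter_not (s := univ.filter
        (fun i => α i ⟨head a, ha⟩ = a)) (fun i => χ (i, ⟨head a, ha⟩) = true),
        filter_filter, filter_filter]
      congr 2
      refine filter_congr fun i _ => ?_
      simp
  · intro a
    by_cases ha : head a = r
    · rw [hcnt0 _ a ha, hcnt0 _ a ha]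
      omega
    · rw [hcnt1 true a ⟨head a, ha⟩ rfl, hcnt1 false a ⟨head a, ha⟩ rfl]
      exact ⟨hχ2 true ⟨head a, ha⟩ a, hχ2 false ⟨head a, ha⟩ a⟩

end Pool.Agent.LibE457k
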