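import Pool.Agent.Lib_MP_e457e7_co_k.Core
import Pool.Agent.Lib_MP_e457e7_co_k.Helly

/-!
If `∑ v, h v ≤ k + 2`, the critical sets of any `2k` arborescences have a host tree.
-/

set_option autoImplicit false
set_option linter.unusedSectionVars false

namespace Pool.Agent.LibE457k

open Finset

variable {W ι : Type*} [Fintype W] [DecidableEq W] [Fintype ι] [DecidableEq ι]

/-- the elements of `Y` whose parent is outside `Y` -/
def ext (p : W → Option W) (Y : Finset W) : Finset W := Y.filter (fun v => ∀ u ∈ Y, p v ≠ some u)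

theorem mem_ext {p : W → Option W} {Y : Finset W} {v : W} :
    v ∈ ext p Y ↔ v ∈ Y ∧ ∀ u ∈ Y, p v ≠ some u := by
  simp [ext]

theorem ext_nonempty {p : W → Option W} (hp : Rooted p) {Y : Finset W} (hY : Y.Nonempty) :
    1 ≤ (ext p Y).card := by
  obtain ⟨v, hv, h⟩ := hp Y hY
  exact card_pos.2 ⟨v, mem_ext.2 ⟨hv, h⟩⟩

theorem sum_ext (π : ι → W → Option W) (Y : Finset W) :
    ∑ i, (ext (π i) Y).card + (inn π Y).card = Fintype.card ι * Y.card := by
  classical
  have h1 : (inn π Y).card = ∑ i, (Y.filter (fun v => ¬ ∀ u ∈ Y, π i v ≠ some u)).card := by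
    rw [← card_sigma]
    refine card_bij (fun p _ => (⟨p.1, p.2⟩ : (_ : ι) × W)) ?_ ?_ ?_
    · intro p hp
      obtain ⟨h1, u, hu, h2⟩ := mem_inn.1 hp
      refine mem_sigma.2 ⟨mem_univ _, mem_filter.2 ⟨h1, ?_⟩⟩
      intro h
      exact h u hu h2
    · intro p _ q _ hpq
      simp only [Sigma.mk.injEq, heq_eq_eq] at hpq
      exact Prod.ext hpq.1 hpq.2
    · rintro ⟨i, v⟩ hx
      obtain ⟨_, hx⟩ := mem_sigma.1 hx
      obtain ⟨h1, h2⟩ := mem_filter.1 hx
      push Not at h2
      exact ⟨(i, v), mem_inn.2 ⟨h1, h2⟩, rfl⟩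
  rw [h1, ← sum_add_distrib]
  have h2 : ∀ i, (ext (π i) Y).card + (Y.filter (fun v => ¬ ∀ u ∈ Y, π i v ≠ some u)).card
      = Y.card := by
    intro i
    unfold ext
    exact card_filter_add_card_filter_not _
  simp only [h2, sum_const, card_univ, smul_eq_mul]

theorem crit_ext {k : ℕ} (hι : Fintype.card ι = 2 * k) {h : W → ℕ} {π : ι → W → Option W}
    {Y : Finset W} (hY : Y.Nonempty) (hc : Crit k h π Y) :
    ∑ i, (ext (π i) Y).card + 2 ≤ 2 * k + ∑ v ∈ Y, h v := by
  have h1 := sum_ext π Y
  rw [hι] at h1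
  unfold Crit at hc
  have h3 : 1 ≤ Y.card := card_pos.2 hY
  obtain ⟨m, hm⟩ : ∃ m, Y.card = m + 1 := ⟨Y.card - 1, by omega⟩
  rw [hm] at h1 hc
  simp only [Nat.add_sub_cancel] at hc
  rw [mul_add, mul_one] at h1
  omega

theorem anc_exit {t : W → Option W} (ht : Rooted t) {Y : Finset W} {y₀ : W}
    (hconv : ∀ v ∈ Y, v ≠ y₀ → ∃ u ∈ Y, t v = some u) : ∀ v ∈ Y, Anc t v y₀ := by
  classical
  by_contra hcon
  push Not at hcon
  obtain ⟨v, hv, hv'⟩ := hcon
  obtain ⟨x, hx, h⟩ := ht (Y.filter (fun x => ¬ Anc t x y₀)) ⟨v, by simp [hv, hv']⟩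
  simp only [mem_filter] at hx h
  have hne : x ≠ y₀ := by
    rintro rfl
    exact hx.2 Relation.ReflTransGen.refl
  obtain ⟨u, hu, hxu⟩ := hconv x hx.1 hne
  refine h u ⟨hu, fun hua => hx.2 ?_⟩ hxu
  exact Relation.ReflTransGen.head hxu hua

theorem between {t : W → Option W} (ht : Rooted t) {Z : Finset W} {z₀ : W}
    (hconv : ∀ v ∈ Z, v ≠ z₀ → ∃ u ∈ Z, t v = some u) {c : W} (hc : Anc t c z₀) :
    ∀ v, Anc t v c → v ∈ Z → c ∈ Z := by
  intro v hvc
  induction hvc using Relation.ReflTransGen.head_induction_on with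
  | refl => exact id
  | @head a b hab hbc ih =>
    intro ha
    by_cases h : a = z₀
    · subst h
      exact (ht.acyclic hab (Relation.ReflTransGen.trans hbc hc)).elim
    · obtain ⟨u, hu, hau⟩ := hconv a ha h
      rw [hab] at hau
      simp only [Option.some.injEq] at hau
      subst hau
      exact ih hu

open Classical in
/-- number of ancestors -/
noncomputable def depth (p : W → Option W) (v : W) : ℕ := (univ.filter (fun w => Anc p v w)).card

theorem exit_mem {p : W → Option W} (hp : Rooted p) {X Z : Finset W} {x₀ z₀ v : W}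
    (hX : ∀ v ∈ X, v ≠ x₀ → ∃ u ∈ X, p v = some u)
    (hZ : ∀ v ∈ Z, v ≠ z₀ → ∃ u ∈ Z, p v = some u) (hvX : v ∈ X) (hvZ : v ∈ Z)
    (hd : depth p z₀ ≤ depth p x₀) : x₀ ∈ Z := by
  classical
  have h1 := anc_exit hp hX v hvX
  have h2 := anc_exit hp hZ v hvZ
  have h3 : Anc p x₀ z₀ := by
    rcases Relation.ReflTransGen.total_of_right_unique
      (fun a b c (hb : p a = some b) (hc : p a = some c) => by
        rw [hb] at hc; exact Option.some_injective _ hc) h1 h2 with h | h
    · exact h
    · have h4 : univ.filter (fun w => Anc p x₀ w) ⊆ univ.filter (fun w => Anc p z₀ w) := by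
        intro w hw
        simp only [mem_filter, mem_univ, true_and] at hw ⊢
        exact Relation.ReflTransGen.trans h hw
      have h5 := eq_of_subset_of_card_le h4 hd
      have h6 : z₀ ∈ univ.filter (fun w => Anc p z₀ w) := by
        simp only [mem_filter, mem_univ, true_and]
        exact Relation.ReflTransGen.refl
      rw [← h5] at h6
      simpa using h6
  exact between hp hZ h3 v h1 hvZ

theorem exit_of_card {p : W → Option W} {X : Finset W} (h : (ext p X).card ≤ 1) {x₀ : W}
    (hx₀ : x₀ ∈ ext p X) : ∀ v ∈ X, v ≠ x₀ → ∃ u ∈ X, p v = some u := by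
  intro v hv hne
  by_contra hcon
  push Not at hcon
  exact hne (card_le_one.1 h v (mem_ext.2 ⟨hv, hcon⟩) x₀ hx₀)

/-- In a cyclic family some member is not a subtree. -/
theorem cycle_bad {p : W → Option W} (hp : Rooted p) {M : ℕ} (hM : 0 < M) (X : ℕ → Finset W)
    (hne : ∀ i < M, (X i).Nonempty)
    (hnb : ∀ i < M, ∃ j < M, ∃ j' < M, i ≠ j ∧ i ≠ j' ∧ j ≠ j' ∧ Meet (X i) (X j) ∧
      Meet (X i) (X j'))
    (h2 : ∀ v, ((range M).filter (fun i => v ∈ X i)).card ≤ 2) :
    M + 1 ≤ ∑ i ∈ range M, (ext p (X i)).card := by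
  classical
  have hex : ∃ i ∈ range M, 2 ≤ (ext p (X i)).card := by
    by_contra hcon
    push Not at hcon
    have hy : ∀ i, ∃ y, i < M → y ∈ ext p (X i) := by
      intro i
      by_cases hi : i < M
      · obtain ⟨y, hy⟩ := card_pos.1 (ext_nonempty hp (hne i hi))
        exact ⟨y, fun _ => hy⟩
      · obtain ⟨y, _⟩ := hne 0 hM
        exact ⟨y, fun h => absurd h hi⟩
    choose y hy using hy
    obtain ⟨i, hi, himax⟩ := exists_max_image (range M) (fun i => depth p (y i))
      ⟨0, mem_range.2 hM⟩
    have hiM := mem_range.1 hi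
    obtain ⟨j, hj, j', hj', hij, hij', hjj, hm, hm'⟩ := hnb i hiM
    have key : ∀ j < M, Meet (X i) (X j) → y i ∈ X j := by
      intro j hj ⟨v, hv1, hv2⟩
      refine exit_mem hp (exit_of_card (by have := hcon i hi; omega) (hy i hiM))
        (exit_of_card (by have := hcon j (mem_range.2 hj); omega) (hy j hj)) hv1 hv2
        (himax j (mem_range.2 hj))
    have h3 : ({i, j, j'} : Finset ℕ) ⊆ (range M).filter (fun l => y i ∈ X l) := by
      intro l hl
      simp only [mem_insert, mem_singleton] at hl
      rw [mem_filter, mem_range]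
      rcases hl with rfl | rfl | rfl
      · exact ⟨hiM, (mem_ext.1 (hy _ hiM)).1⟩
      · exact ⟨hj, key _ hj hm⟩
      · exact ⟨hj', key _ hj' hm'⟩
    have h4 := card_le_card h3
    have h5 := h2 (y i)
    have h6 : ({i, j, j'} : Finset ℕ).card = 3 := by
      rw [card_insert_of_notMem, card_insert_of_notMem, card_singleton]
      · simpa using hjj
      · simp only [mem_insert, mem_singleton, not_or]
        exact ⟨hij, hij'⟩
    omega
  obtain ⟨i, hi, hi2⟩ := hex
  have h3 : ∑ j ∈ range M, (1 + if j = i then 1 else 0) ≤ ∑ j ∈ range M, (ext p (X j)).card := by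
    refine sum_le_sum fun j hj => ?_
    have := ext_nonempty hp (hne j (mem_range.1 hj))
    split_ifs with h
    · subst h; omega
    · omega
  rw [sum_add_distrib, sum_ite_eq' (range M) i, if_pos hi, sum_const, card_range] at h3
  simpa using h3

theorem sum_cover {β : Type*} [DecidableEq β] (s : Finset β) (X : β → Finset W) (h : W → ℕ)
    (c : ℕ) (hc : ∀ v, (s.filter (fun j => v ∈ X j)).card ≤ c) :
    ∑ j ∈ s, ∑ v ∈ X j, h v ≤ c * ∑ v, h v := by
  have h1 : ∑ j ∈ s, ∑ v ∈ X j, h v = ∑ v, (s.filter (fun j => v ∈ X j)).card * h v := by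
    have h2 : ∀ j, ∑ v ∈ X j, h v = ∑ v, if v ∈ X j then h v else 0 := by
      intro j
      rw [← sum_filter]
      congr 1
      ext v
      simp
    simp only [h2]
    rw [sum_comm]
    refine sum_congr rfl fun v _ => ?_
    rw [← sum_filter, sum_const, smul_eq_mul]
  rw [h1, mul_sum]
  exact sum_le_sum fun v _ => Nat.mul_le_mul_right _ (hc v)

/-- the level set count for a minimal family without the Helly property -/
theorem helly_count {p : W → Option W} (hp : Rooted p) (G : Finset (Finset W))
    (hm : 3 ≤ G.card) (hno : ∀ v, ∃ X ∈ G, v ∉ X)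
    (hmin : ∀ X ∈ G, ∃ v, ∀ Y ∈ G, Y ≠ X → v ∈ Y) :
    2 * G.card - 2 ≤ ∑ X ∈ G, (ext p X).card := by
  classical
  set m := G.card with hm_def
  let J : W → Finset (Finset W) := fun v => G.filter (fun X => v ∈ X)
  let Jp : W → Finset (Finset W) := fun v => match p v with | none => ∅ | some u => J u
  have hJmem : ∀ v X, X ∈ J v ↔ X ∈ G ∧ v ∈ X := by
    intro v X; simp [J]
  have hJsub : ∀ v, J v ⊆ G := fun v => filter_subset _ _
  have hJcard : ∀ v, (J v).card ≤ m - 1 := by
    intro v
    obtain ⟨X, hX, hvX⟩ := hno v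
    have h1 : J v ⊆ G.erase X := by
      intro Y hY
      obtain ⟨h1, h2⟩ := (hJmem v Y).1 hY
      refine mem_erase.2 ⟨?_, h1⟩
      rintro rfl
      exact hvX h2
    have h2 := card_le_card h1
    rw [card_erase_of_mem hX] at h2
    exact h2
  have hJpsub : ∀ v, Jp v ⊆ G := by
    intro v
    simp only [Jp]
    split
    · simp
    · exact hJsub _
  choose x hx using hmin
  have hxJ : ∀ X (hX : X ∈ G), J (x X hX) = G.erase X := by
    intro X hX
    ext Y
    rw [hJmem, mem_erase]
    constructor
    · rintro ⟨hY, hxY⟩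
      refine ⟨?_, hY⟩
      rintro rfl
      obtain ⟨Z, hZ, hxZ⟩ := hno (x Y hX)
      by_cases hZY : Z = Y
      · subst hZY; exact hxZ hxY
      · exact hxZ (hx Y hX Z hZ hZY)
    · rintro ⟨hYX, hY⟩
      exact ⟨hY, hx X hX Y hY hYX⟩
  -- double counting
  have hdc : ∑ X ∈ G, (ext p X).card = ∑ v, (J v \ Jp v).card := by
    have h1 : ∀ X ∈ G, (ext p X).card = ∑ v, if X ∈ J v \ Jp v then 1 else 0 := by
      intro X hX
      rw [← card_filter]
      congr 1
      ext v
      rw [mem_ext, mem_filter, mem_sdiff, hJmem]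
      constructor
      · rintro ⟨h1, h2⟩
        refine ⟨mem_univ _, ⟨hX, h1⟩, ?_⟩
        simp only [Jp]
        split
        · simp
        · rename_i u hu
          intro h3
          exact h2 u ((hJmem u X).1 h3).2 hu
      · rintro ⟨_, ⟨_, h1⟩, h2⟩
        refine ⟨h1, fun u hu hpv => h2 ?_⟩
        simp only [Jp, hpv]
        exact (hJmem u X).2 ⟨hX, hu⟩
    rw [sum_congr rfl h1, sum_comm]
    refine sum_congr rfl fun v _ => ?_
    rw [← sum_filter, sum_const, smul_eq_mul, mul_one]
    congr 1
    ext X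
    simp only [mem_filter, mem_sdiff]
    constructor
    · rintro ⟨_, h⟩; exact h
    · intro h; exact ⟨hJsub v h.1, h⟩
  -- pointwise bound
  have hpt : ∀ v, (∑ t ∈ Icc 1 (m - 2), if (Jp v).card < t ∧ t ≤ (J v).card then 1 else 0) +
      (if (J v).card = m - 1 ∧ Jp v ≠ J v then 1 else 0) ≤ (J v \ Jp v).card := by
    intro v
    rw [← card_filter]
    have h1 : (J v).card - (Jp v).card ≤ (J v \ Jp v).card := le_card_sdiff _ _
    have h2 : ((Icc 1 (m - 2)).filter (fun t => (Jp v).card < t ∧ t ≤ (J v).card)) ⊆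
        Ioc (Jp v).card (min (m - 2) (J v).card) := by
      intro t ht
      simp only [mem_filter, mem_Icc, mem_Ioc] at ht ⊢
      omega
    have h3 := card_le_card h2
    rw [Nat.card_Ioc] at h3
    split_ifs with h4
    · obtain ⟨h4, h5⟩ := h4
      have h6 : 1 ≤ (J v \ Jp v).card := by
        by_contra h7
        have h8 : J v \ Jp v = ∅ := by
          rw [← card_eq_zero]; omega
        have h9 : J v ⊆ Jp v := sdiff_eq_empty_iff_subset.1 h8
        have h10 : (Jp v).card ≤ (J v).card := by
          simp only [Jp]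
          split
          · simp
          · rw [h4]; exact hJcard _
        exact h5 (eq_of_subset_of_card_le h9 h10).symm
      omega
    · omega
  have hsum1 : m - 2 ≤ ∑ v, ∑ t ∈ Icc 1 (m - 2),
      if (Jp v).card < t ∧ t ≤ (J v).card then 1 else 0 := by
    rw [sum_comm]
    have h1 : ∑ _t ∈ Icc 1 (m - 2), 1 ≤ ∑ t ∈ Icc 1 (m - 2), ∑ v,
        if (Jp v).card < t ∧ t ≤ (J v).card then 1 else 0 := by
      refine sum_le_sum fun t ht => ?_
      obtain ⟨ht1, ht2⟩ := mem_Icc.1 ht
      rw [← card_filter]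
      obtain ⟨X, hX⟩ := card_pos.1 (by omega : 0 < G.card)
      have h2 : x X hX ∈ univ.filter (fun v => t ≤ (J v).card) := by
        simp only [mem_filter, mem_univ, true_and]
        rw [hxJ, card_erase_of_mem hX]
        omega
      obtain ⟨v, hv, hv'⟩ := hp _ ⟨_, h2⟩
      refine card_pos.2 ⟨v, ?_⟩
      simp only [mem_filter, mem_univ, true_and] at hv hv' ⊢
      refine ⟨?_, hv⟩
      simp only [Jp]
      split
      · simp; omega
      · rename_i u hu
        by_contra hcon
        exact hv' u (by omega) hu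
    simpa using h1
  have hsum2 : m ≤ ∑ v, if (J v).card = m - 1 ∧ Jp v ≠ J v then 1 else 0 := by
    rw [← card_filter]
    have hK : ∀ X (hX : X ∈ G), ∃ v, J v = G.erase X ∧ Jp v ≠ J v := by
      intro X hX
      obtain ⟨v, hv, hv'⟩ := hp (univ.filter (fun v => J v = G.erase X))
        ⟨x X hX, by simp [hxJ]⟩
      simp only [mem_filter, mem_univ, true_and] at hv hv'
      refine ⟨v, hv, ?_⟩
      rw [hv]
      simp only [Jp]
      split
      · intro h
        have := congrArg Finset.card h
        rw [card_erase_of_mem hX, card_empty] at this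
        omega
      · rename_i u hu
        intro h
        exact hv' u h hu
    choose y hy1 hy2 using hK
    have h1 : (G.attach.image (fun X => y X.1 X.2)).card = m := by
      rw [card_image_of_injective, card_attach]
      intro X Y hXY
      have h2 : G.erase X.1 = G.erase Y.1 := by
        rw [← hy1 X.1 X.2, ← hy1 Y.1 Y.2]
        simp only at hXY
        rw [hXY]
      apply Subtype.ext
      by_contra hne
      have h3 : X.1 ∈ G.erase Y.1 := mem_erase.2 ⟨hne, X.2⟩
      rw [← h2] at h3
      exact (mem_erase.1 h3).1 rfl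
    refine h1.symm.le.trans (card_le_card ?_)
    intro v hv
    obtain ⟨X, _, rfl⟩ := mem_image.1 hv
    simp only [mem_filter, mem_univ, true_and]
    refine ⟨?_, hy2 X.1 X.2⟩
    rw [hy1, card_erase_of_mem X.2]
  rw [hdc]
  have h1 := sum_le_sum (s := (univ : Finset W)) (fun v _ => hpt v)
  rw [sum_add_distrib] at h1
  omega

/-- the critical sets have the Helly property -/
theorem crit_helly {k : ℕ} (hι : Fintype.card ι = 2 * k) {h : W → ℕ} (hk : ∑ v, h v ≤ k + 2)
    {π : ι → W → Option W} (hπ : ∀ i, Rooted (π i)) :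
    ∀ n : ℕ, ∀ G : Finset (Finset W), G.card ≤ n → G.Nonempty →
      (∀ X ∈ G, X.Nonempty ∧ Crit k h π X) → (∀ X ∈ G, ∀ Y ∈ G, Adj X Y) →
      ∃ v, ∀ X ∈ G, v ∈ X := by
  classical
  intro n
  induction n with
  | zero =>
    intro G hG hne _ _
    have := card_pos.2 hne
    omega
  | succ n ih =>
    intro G hG hne hcr hadj
    by_contra hcon
    push Not at hcon
    have hmin : ∀ X ∈ G, ∃ v, ∀ Y ∈ G, Y ≠ X → v ∈ Y := by
      intro X hX
      by_cases h1 : (G.erase X).Nonempty
      · obtain ⟨v, hv⟩ := ih (G.erase X) (by rw [card_erase_of_mem hX]; omega) h1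
          (fun Y hY => hcr Y (mem_erase.1 hY).2)
          (fun Y hY Z hZ => hadj Y (mem_erase.1 hY).2 Z (mem_erase.1 hZ).2)
        exact ⟨v, fun Y hY hYX => hv Y (mem_erase.2 ⟨hYX, hY⟩)⟩
      · obtain ⟨v, _⟩ := (hcr X hX).1
        refine ⟨v, fun Y hY hYX => ?_⟩
        exact absurd ⟨Y, mem_erase.2 ⟨hYX, hY⟩⟩ h1
    have hm3 : 3 ≤ G.card := by
      by_contra hlt
      obtain ⟨X, hX⟩ := hne
      obtain ⟨v, hv⟩ := (hcr X hX).1
      obtain ⟨Y, hY, hvY⟩ := hcon v
      have hXY : X ≠ Y := by
        rintro rfl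
        exact hvY hv
      have hG2 : G = {X, Y} := by
        refine (eq_of_subset_of_card_le ?_ ?_).symm
        · intro Z hZ
          simp only [mem_insert, mem_singleton] at hZ
          rcases hZ with rfl | rfl
          · exact hX
          · exact hY
        · rw [card_pair hXY]; omega
      rcases hadj X hX Y hY with h1 | ⟨w, hw1, hw2⟩
      · exact hXY h1
      · obtain ⟨Z, hZ, hwZ⟩ := hcon w
        rw [hG2] at hZ
        simp only [mem_insert, mem_singleton] at hZ
        rcases hZ with rfl | rfl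
        · exact hwZ hw1
        · exact hwZ hw2
    -- counting
    have h1 : 2 * k * (2 * G.card - 2) ≤ ∑ X ∈ G, ∑ i, (ext (π i) X).card := by
      rw [sum_comm]
      have h2 : ∑ _i : ι, (2 * G.card - 2) ≤ ∑ i, ∑ X ∈ G, (ext (π i) X).card :=
        sum_le_sum fun i _ => helly_count (hπ i) G hm3 hcon hmin
      rw [sum_const, card_univ, hι, smul_eq_mul] at h2
      exact h2
    have h2 : ∑ X ∈ G, (∑ i, (ext (π i) X).card + 2) ≤ ∑ X ∈ G, (2 * k + ∑ v ∈ X, h v) :=
      sum_le_sum fun X hX => crit_ext hι (hcr X hX).1 (hcr X hX).2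
    rw [sum_add_distrib, sum_add_distrib, sum_const, sum_const, smul_eq_mul, smul_eq_mul] at h2
    have h3 : ∑ X ∈ G, ∑ v ∈ X, h v ≤ (G.card - 1) * ∑ v, h v := by
      refine sum_cover G (fun X => X) h (G.card - 1) ?_
      intro v
      obtain ⟨X, hX, hvX⟩ := hcon v
      have h4 : G.filter (fun X => v ∈ X) ⊆ G.erase X := by
        intro Y hY
        obtain ⟨h4, h5⟩ := mem_filter.1 hY
        refine mem_erase.2 ⟨?_, h4⟩
        rintro rfl
        exact hvX h5
      have h5 := card_le_card h4
      rw [card_erase_of_mem hX] at h5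
      exact h5
    have h4 : (G.card - 1) * ∑ v, h v ≤ (G.card - 1) * (k + 2) := Nat.mul_le_mul_left _ hk
    obtain ⟨a, ha⟩ : ∃ a, G.card = a + 3 := ⟨G.card - 3, by omega⟩
    rw [ha] at h1 h2 h3 h4
    have e1 : 2 * (a + 3) - 2 = 2 * a + 4 := by omega
    have e2 : a + 3 - 1 = a + 2 := by omega
    rw [e1] at h1
    rw [e2] at h3 h4
    have e3 : 2 * k * (2 * a + 4) = 4 * (a * k) + 8 * k := by ring
    have e4 : (a + 3) * (2 * k) = 2 * (a * k) + 6 * k := by ring
    have e5 : (a + 2) * (k + 2) = a * k + 2 * a + 2 * k + 4 := by ring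
    rw [e3] at h1
    rw [e4] at h2
    rw [e5] at h4
    omega

/-- walks from `C` to `C'` avoiding the neighbourhood of `D` -/
def Walk (F : Finset (Finset W)) (D C C' : Finset W) (q : ℕ) : Prop :=
  ∃ w : ℕ → Finset W, w 0 = C ∧ w q = C' ∧ (∀ i, 0 < i → i < q → w i ∈ F ∧ ¬ Meet (w i) D) ∧
    ∀ i < q, Meet (w i) (w (i + 1))

/-- the critical sets have a chordal intersection graph -/
theorem crit_chordal {k : ℕ} (hι : Fintype.card ι = 2 * k) {h : W → ℕ} (hk : ∑ v, h v ≤ k + 2)
    {π : ι → W → Option W} (hπ : ∀ i, Rooted (π i)) (F : Finset (Finset W))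
    (hF : ∀ X ∈ F, X.Nonempty ∧ Crit k h π X) : Chordal Adj F := by
  classical
  have hmeet : ∀ X ∈ F, ∀ Y, Adj X Y → Meet X Y := by
    intro X hX Y hXY
    rcases hXY with rfl | hXY
    · obtain ⟨v, hv⟩ := (hF X hX).1
      exact ⟨v, hv, hv⟩
    · exact hXY
  intro D hD C hC C' hC' Q hQ Q' hCD hCD' hQD hQQ hCQ hCQ'
  by_contra hCC
  have hwalk : ∃ q, Walk F D C C' q := by
    have h1 : ∀ R, Relation.ReflTransGen (Away Adj F D) Q R → ∃ q, 0 < q ∧
        ∃ w : ℕ → Finset W, w 0 = C ∧ w q = R ∧
          (∀ i, 0 < i → i ≤ q → w i ∈ F ∧ ¬ Meet (w i) D) ∧ ∀ i < q, Meet (w i) (w (i + 1)) := by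
      intro R hR
      induction hR with
      | refl =>
        refine ⟨1, one_pos, fun i => if i = 0 then C else Q, by simp, by simp, ?_, ?_⟩
        · intro i hi1 hi2
          have : i = 1 := by omega
          subst this
          simp only [one_ne_zero, if_false]
          exact ⟨hQ, fun h => hQD (Or.inr h)⟩
        · intro i hi
          have : i = 0 := by omega
          subst this
          simpa using hmeet C hC Q hCQ
      | @tail P R _ hstep ih =>
        obtain ⟨q, hq, w, hw0, hwq, hw1, hw2⟩ := ih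
        refine ⟨q + 1, Nat.succ_pos q, fun i => if i ≤ q then w i else R, by simp [hw0],
          by simp, ?_, ?_⟩
        · intro i hi1 hi2
          by_cases hi : i ≤ q
          · simp only [hi, if_true]
            exact hw1 i hi1 hi
          · simp only [hi, if_false]
            exact ⟨hstep.2.1.1, fun h => hstep.2.1.2 (Or.inr h)⟩
        · intro i hi
          by_cases hi' : i < q
          · have e1 : i ≤ q := by omega
            have e2 : i + 1 ≤ q := by omega
            simp only [e1, e2, if_true]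
            exact hw2 i hi'
          · have e0 : i = q := by omega
            subst e0
            have e2 : ¬ i + 1 ≤ i := by omega
            simp only [le_refl, e2, if_true, if_false]
            rw [hwq]
            exact hmeet P hstep.1.1 R hstep.2.2
    obtain ⟨q, hq, w, hw0, hwq, hw1, hw2⟩ := h1 Q' hQQ
    have hQ' : w q ∈ F := (hw1 q hq le_rfl).1
    refine ⟨q + 1, fun i => if i ≤ q then w i else C', by simp [hw0], by simp, ?_, ?_⟩
    · intro i hi1 hi2
      have hi : i ≤ q := by omega
      simp only [hi, if_true]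
      exact hw1 i hi1 hi
    · intro i hi
      by_cases hi' : i < q
      · have e1 : i ≤ q := by omega
        have e2 : i + 1 ≤ q := by omega
        simp only [e1, e2, if_true]
        exact hw2 i hi'
      · have e0 : i = q := by omega
        subst e0
        have e2 : ¬ i + 1 ≤ i := by omega
        simp only [le_refl, e2, if_true, if_false]
        rw [hwq]
        exact (hmeet C' hC' Q' hCQ').symm
  -- a shortest walk
  set q := Nat.find hwalk with hq_def
  obtain ⟨w, hw0, hwq, hw1, hw2⟩ := Nat.find_spec hwalk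
  rw [← hq_def] at hwq hw1 hw2
  have hmin : ∀ q' < q, ¬ Walk F D C C' q' := fun q' hq' => Nat.find_min hwalk hq'
  have hq2 : 2 ≤ q := by
    by_contra hlt
    rcases (by omega : q = 0 ∨ q = 1) with h0 | h1
    · rw [h0, hw0] at hwq
      exact hCC (Or.inl hwq)
    · have := hw2 0 (by omega)
      rw [hw0] at this
      rw [h1] at hwq
      rw [zero_add, hwq] at this
      exact hCC (Or.inr this)
  have hfar : ∀ i j, i + 2 ≤ j → j ≤ q → ¬ Meet (w i) (w j) := by
    intro i j hij hjq hm
    refine hmin (q - (j - i - 1)) (by omega) ?_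
    refine ⟨fun m => if m ≤ i then w m else w (m + (j - i - 1)), by simp [hw0], ?_, ?_, ?_⟩
    · have e1 : ¬ q - (j - i - 1) ≤ i := by omega
      have e2 : q - (j - i - 1) + (j - i - 1) = q := by omega
      simp only [e1, if_false, e2, hwq]
    · intro m hm1 hm2
      by_cases h1 : m ≤ i
      · simp only [h1, if_true]
        exact hw1 m hm1 (by omega)
      · simp only [h1, if_false]
        exact hw1 _ (by omega) (by omega)
    · intro m hm1
      by_cases h1 : m < i
      · have e1 : m ≤ i := by omega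
        have e2 : m + 1 ≤ i := by omega
        simp only [e1, e2, if_true]
        exact hw2 m (by omega)
      · by_cases h2 : m = i
        · subst h2
          have e2 : ¬ m + 1 ≤ m := by omega
          have e3 : m + 1 + (j - m - 1) = j := by omega
          simp only [le_refl, e2, if_true, if_false, e3]
          exact hm
        · have e1 : ¬ m ≤ i := by omega
          have e2 : ¬ m + 1 ≤ i := by omega
          have e3 : m + 1 + (j - i - 1) = m + (j - i - 1) + 1 := by omega
          simp only [e1, e2, if_false, e3]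
          exact hw2 _ (by omega)
  -- the cyclic family
  let X : ℕ → Finset W := fun i => if i ≤ q then w i else D
  have hXw : ∀ i, i ≤ q → X i = w i := by
    intro i hi; simp [X, hi]
  have hXD : X (q + 1) = D := by simp [X]
  have hmC : Meet C D := hmeet C hC D hCD
  have hmC' : Meet C' D := hmeet C' hC' D hCD'
  have hXF : ∀ i < q + 2, X i ∈ F := by
    intro i hi
    by_cases h1 : i ≤ q
    · rw [hXw i h1]
      rcases Nat.eq_zero_or_pos i with h2 | h2
      · rw [h2, hw0]; exact hC
      · rcases Nat.lt_or_ge i q with h3 | h3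
        · exact (hw1 i h2 h3).1
        · have : i = q := by omega
          rw [this, hwq]; exact hC'
    · have : i = q + 1 := by omega
      rw [this, hXD]; exact hD
  have hnb : ∀ i < q + 2, ∃ j < q + 2, ∃ j' < q + 2, i ≠ j ∧ i ≠ j' ∧ j ≠ j' ∧
      Meet (X i) (X j) ∧ Meet (X i) (X j') := by
    intro i hi
    rcases (by omega : i = 0 ∨ (0 < i ∧ i < q) ∨ i = q ∨ i = q + 1) with h1 | h1 | h1 | h1
    · refine ⟨1, by omega, q + 1, by omega, by omega, by omega, by omega, ?_, ?_⟩
      · rw [h1, hXw 0 (by omega), hXw 1 (by omega)]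
        exact hw2 0 (by omega)
      · rw [h1, hXw 0 (by omega), hXD, hw0]
        exact hmC
    · refine ⟨i - 1, by omega, i + 1, by omega, by omega, by omega, by omega, ?_, ?_⟩
      · rw [hXw i (by omega), hXw (i - 1) (by omega)]
        have := hw2 (i - 1) (by omega)
        rw [Nat.sub_add_cancel h1.1] at this
        exact this.symm
      · rw [hXw i (by omega), hXw (i + 1) (by omega)]
        exact hw2 i h1.2
    · refine ⟨q - 1, by omega, q + 1, by omega, by omega, by omega, by omega, ?_, ?_⟩
      · rw [h1, hXw q le_rfl, hXw (q - 1) (by omega)]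
        have := hw2 (q - 1) (by omega)
        rw [Nat.sub_add_cancel (by omega)] at this
        exact this.symm
      · rw [h1, hXw q le_rfl, hXD, hwq]
        exact hmC'
    · refine ⟨0, by omega, q, by omega, by omega, by omega, by omega, ?_, ?_⟩
      · rw [h1, hXD, hXw 0 (by omega), hw0]
        exact hmC.symm
      · rw [h1, hXD, hXw q le_rfl, hwq]
        exact hmC'.symm
  have htwo : ∀ v, ((range (q + 2)).filter (fun i => v ∈ X i)).card ≤ 2 := by
    intro v
    by_contra hcon
    push Not at hcon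
    obtain ⟨a, b, c, ha, hb, hc, hab, hac, hbc⟩ := two_lt_card_iff.1 hcon
    simp only [mem_filter, mem_range] at ha hb hc
    -- two indices at most `q` containing `v` differ by at most one
    have hnear : ∀ i j, i ≤ q → j ≤ q → v ∈ X i → v ∈ X j → i < j → j = i + 1 := by
      intro i j hi hj hvi hvj hij
      by_contra hne
      refine hfar i j (by omega) hj ⟨v, ?_, ?_⟩
      · rw [← hXw i hi]; exact hvi
      · rw [← hXw j hj]; exact hvj
    have hend : v ∈ X (q + 1) → ∀ i, i ≤ q → v ∈ X i → i = 0 ∨ i = q := by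
      intro hv i hi hvi
      by_contra hne
      push Not at hne
      refine (hw1 i (by omega) (by omega)).2 ⟨v, ?_, ?_⟩
      · rw [← hXw i hi]; exact hvi
      · rw [← hXD]; exact hv
    have hD2 : v ∈ X (q + 1) → ∀ i j, i ≤ q → j ≤ q → v ∈ X i → v ∈ X j → i ≠ j → False := by
      intro hv i j hi hj hvi hvj hij
      have h1 := hend hv i hi hvi
      have h2 := hend hv j hj hvj
      rcases Nat.lt_or_gt_of_ne hij with h3 | h3
      · have := hnear i j hi hj hvi hvj h3
        omega
      · have := hnear j i hj hi hvj hvi h3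
        omega
    by_cases ha' : a ≤ q
    · by_cases hb' : b ≤ q
      · by_cases hc' : c ≤ q
        · rcases Nat.lt_or_gt_of_ne hab with h1 | h1
          · have e1 := hnear a b ha' hb' ha.2 hb.2 h1
            rcases Nat.lt_or_gt_of_ne hbc with h2 | h2
            · have e2 := hnear b c hb' hc' hb.2 hc.2 h2
              have e3 := hnear a c ha' hc' ha.2 hc.2 (by omega)
              omega
            · have e2 := hnear c b hc' hb' hc.2 hb.2 h2
              omega
          · have e1 := hnear b a hb' ha' hb.2 ha.2 h1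
            rcases Nat.lt_or_gt_of_ne hac with h2 | h2
            · have e2 := hnear a c ha' hc' ha.2 hc.2 h2
              have e3 := hnear b c hb' hc' hb.2 hc.2 (by omega)
              omega
            · have e2 := hnear c a hc' ha' hc.2 ha.2 h2
              omega
        · have e : c = q + 1 := by omega
          subst e
          exact hD2 hc.2 a b ha' hb' ha.2 hb.2 hab
      · have e : b = q + 1 := by omega
        subst e
        have hc' : c ≤ q := by omega
        exact hD2 hb.2 a c ha' hc' ha.2 hc.2 hac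
    · have e : a = q + 1 := by omega
      subst e
      have hb' : b ≤ q := by omega
      have hc' : c ≤ q := by omega
      exact hD2 ha.2 b c hb' hc' hb.2 hc.2 hbc
  -- counting
  have h1 : 2 * k * (q + 2 + 1) ≤ ∑ j ∈ range (q + 2), ∑ i, (ext (π i) (X j)).card := by
    rw [sum_comm]
    have h2 : ∑ _i : ι, (q + 2 + 1) ≤ ∑ i, ∑ j ∈ range (q + 2), (ext (π i) (X j)).card :=
      sum_le_sum fun i _ => cycle_bad (hπ i) (by omega) X (fun j hj => (hF _ (hXF j hj)).1)
        hnb htwo
    rw [sum_const, card_univ, hι, smul_eq_mul] at h2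
    exact h2
  have h2 : ∑ j ∈ range (q + 2), (∑ i, (ext (π i) (X j)).card + 2) ≤
      ∑ j ∈ range (q + 2), (2 * k + ∑ v ∈ X j, h v) :=
    sum_le_sum fun j hj => crit_ext hι (hF _ (hXF j (mem_range.1 hj))).1
      (hF _ (hXF j (mem_range.1 hj))).2
  rw [sum_add_distrib, sum_add_distrib, sum_const, sum_const, smul_eq_mul, smul_eq_mul,
    card_range] at h2
  have h3 := sum_cover (range (q + 2)) X h 2 htwo
  have e1 : 2 * k * (q + 2 + 1) = (q + 2) * (2 * k) + 2 * k := by ring
  rw [e1] at h1
  omega

/-- **Host tree of the critical sets.** -/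
theorem exists_host {k : ℕ} (hι : Fintype.card ι = 2 * k) {h : W → ℕ} (hk : ∑ v, h v ≤ k + 2)
    {π : ι → W → Option W} (hπ : ∀ i, Rooted (π i)) :
    ∃ t : W → Option W, Rooted t ∧ ∀ Y : Finset W, Y.Nonempty → Crit k h π Y →
      ∃ y₀ ∈ Y, ∀ v ∈ Y, v ≠ y₀ → ∃ u ∈ Y, t v = some u := by
  classical
  let F : Finset (Finset W) := univ.filter (fun X => X.Nonempty ∧ Crit k h π X)
  have hF : ∀ X, X ∈ F ↔ X.Nonempty ∧ Crit k h π X := by
    intro X; simp [F]
  obtain ⟨t, ht, hconv⟩ := host_tree _ univ F le_rfl (fun X _ => subset_univ _)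
    (fun G hG hne hadj => crit_helly hι hk hπ _ G le_rfl hne (fun X hX => (hF X).1 (hG hX)) hadj)
    (crit_chordal hι hk hπ F (fun X hX => (hF X).1 hX))
  exact ⟨t, ht, fun Y hY hc => hconv Y ((hF Y).2 ⟨hY, hc⟩) hY⟩

end Pool.Agent.LibE457k
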